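import Mathlib

set_option autoImplicit false

/-!
# Faltings heights of products of elliptic curves with full two-torsion: definitions and statements
of the parts
-/

namespace Pool.Agent.TH876.FH

open NumberField IsDedekindDomain

/-- the modular invariant `j = E₄ ^ 3 / Δ` -/
noncomputable def jInv (τ : UpperHalfPlane) : ℂ :=
  ModularForm.E₄ τ ^ 3 / ModularForm.discriminant τ

/-- `- log (|Δ(τ)| (Im τ) ^ 6)` -/
noncomputable def arch (τ : UpperHalfPlane) : ℝ :=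
  -Real.log (‖ModularForm.discriminant τ‖ * τ.im ^ 6)

/-- the stable Faltings height of an elliptic curve with modular invariant `j ∈ K`, where `τ w` is
a point of the upper half plane with modular invariant `j` at the infinite place `w` -/
noncomputable def faltings {K : Type} [Field K] [NumberField K] (j : K)
    (τ : InfinitePlace K → UpperHalfPlane) : ℝ :=
  (∑ᶠ v : HeightOneSpectrum (𝓞 K), Real.log (max (FinitePlace.mk v j) 1) +
    ∑ w : InfinitePlace K, (w.mult : ℝ) * arch (τ w)) / (12 * Module.finrank ℚ K)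

/-- the points `τ w` have modular invariant `j` -/
def IsPeriod {K : Type} [Field K] [NumberField K] (j : K)
    (τ : InfinitePlace K → UpperHalfPlane) : Prop := ∀ w, jInv (τ w) = w.embedding j

/-- full rational two-torsion -/
def FullTwo {K : Type} [Field K] (E : WeierstrassCurve K) : Prop :=
  ∃ e : Fin 3 → K, Function.Injective e ∧
    ∀ i, 4 * e i ^ 3 + E.b₂ * e i ^ 2 + 2 * E.b₄ * e i + E.b₆ = 0

/-- good reduction at `v` -/
def GoodAt {K : Type} [Field K] [NumberField K] (v : HeightOneSpectrum (𝓞 K))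
    (E : WeierstrassCurve K) : Prop :=
  ∃ C : WeierstrassCurve.VariableChange K,
    v.valuation K (C • E).a₁ ≤ 1 ∧ v.valuation K (C • E).a₂ ≤ 1 ∧ v.valuation K (C • E).a₃ ≤ 1 ∧
    v.valuation K (C • E).a₄ ≤ 1 ∧ v.valuation K (C • E).a₆ ≤ 1 ∧ v.valuation K (C • E).Δ = 1

/-- the product of the norms of the primes of bad reduction -/
noncomputable def badNorm {K : Type} [Field K] [NumberField K] (E : WeierstrassCurve K) : ℝ :=
  ∏ᶠ v ∈ {v : HeightOneSpectrum (𝓞 K) | ¬ GoodAt v E}, (Ideal.absNorm v.asIdeal : ℝ)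

/-- the `g`-tuples of modular invariants of the products of `g` elliptic curves over `K` with full
rational two-torsion, product of the norms of the bad primes (of each factor) at most `X` and
Faltings height at most `H` -/
def Classes (K : Type) [Field K] [NumberField K] (g : ℕ) (X H : ℝ) : Set (Fin g → K) :=
  {j | ∃ (E : Fin g → WeierstrassCurve K) (τ : Fin g → InfinitePlace K → UpperHalfPlane),
    (∀ i, (E i).Δ ≠ 0 ∧ FullTwo (E i) ∧ (E i).c₄ ^ 3 / (E i).Δ = j i ∧ IsPeriod (j i) (τ i)) ∧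
    ∏ i, badNorm (E i) ≤ X ∧ ∑ i, faltings (j i) (τ i) ≤ H}

/-- the archimedean comparison -/
def AnaS : Prop :=
  (∀ δ : ℝ, 0 < δ → ∃ c : ℝ, ∀ τ : UpperHalfPlane,
    Real.log (max ‖jInv τ‖ 1) ≤ (1 + δ) * arch τ + c) ∧
  ∃ c : ℝ, ∀ τ : UpperHalfPlane, arch τ ≤ Real.log (max ‖jInv τ‖ 1) + c

/-- the Faltings height and the height of `j` -/
def HjS : Prop := ∀ (K : Type) [Field K] [NumberField K],
  (∀ δ : ℝ, 0 < δ → ∃ c : ℝ, ∀ (j : K) (τ : InfinitePlace K → UpperHalfPlane), IsPeriod j τ →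
    Height.logHeight₁ j ≤ (1 + δ) * (12 * Module.finrank ℚ K * faltings j τ) + c) ∧
  ∃ c : ℝ, ∀ (j : K) (τ : InfinitePlace K → UpperHalfPlane), IsPeriod j τ →
    12 * Module.finrank ℚ K * faltings j τ ≤ Height.logHeight₁ j + c

/-- the Legendre parameter -/
def LegS : Prop := ∀ (K : Type) [Field K] [NumberField K] (E : WeierstrassCurve K), E.Δ ≠ 0 →
  FullTwo E → {v : HeightOneSpectrum (𝓞 K) | ¬ GoodAt v E}.Finite ∧
  ∃ l : K, l ≠ 0 ∧ l ≠ 1 ∧
    E.c₄ ^ 3 / E.Δ * (l ^ 2 * (1 - l) ^ 2) = 256 * (l ^ 2 - l + 1) ^ 3 ∧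
    ∀ v : HeightOneSpectrum (𝓞 K), GoodAt v E → v.valuation K (2 : K) = 1 →
      v.valuation K l = 1 ∧ v.valuation K (1 - l) = 1

/-- the heights of `j` and of the Legendre parameter -/
def LhS : Prop := ∀ (K : Type) [Field K] [NumberField K], ∃ c : ℝ, ∀ j l : K, l ≠ 0 → l ≠ 1 →
  j * (l ^ 2 * (1 - l) ^ 2) = 256 * (l ^ 2 - l + 1) ^ 3 →
  6 * Height.logHeight₁ l ≤ Height.logHeight₁ j + c

/-- `l` and `1 - l` are units outside `2` and a set of primes with product of the norms at most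
`X` -/
def Unit2 {K : Type} [Field K] [NumberField K] (X : ℝ) (l : K) : Prop :=
  l ≠ 0 ∧ l ≠ 1 ∧ ∃ T : Finset (HeightOneSpectrum (𝓞 K)),
    ∏ v ∈ T, (Ideal.absNorm v.asIdeal : ℝ) ≤ X ∧
    ∀ v, v ∉ T → v.valuation K (2 : K) = 1 → v.valuation K l = 1 ∧ v.valuation K (1 - l) = 1

/-- the count of Legendre parameters -/
def CntS : Prop := ∀ (K : Type) [Field K] [NumberField K] (ε : ℝ), 0 < ε → ∃ C : ℝ, 0 ≤ C ∧
  ∀ X H : ℝ, 1 ≤ X → 1 ≤ H → {l : K | Unit2 X l ∧ Height.logHeight₁ l ≤ H}.Finite ∧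
    ({l : K | Unit2 X l ∧ Height.logHeight₁ l ≤ H}.ncard : ℝ) ≤ C * H * X ^ ((2 : ℝ) / 3 + ε)

/-- products: here `P X x` says that `x` has radical at most `X` -/
def ProdS : Prop := ∀ (α : Type) (P : ℝ → α → Prop) (h : α → ℝ) (θ : ℝ), 0 ≤ θ →
  (∀ x X Y, P X x → X ≤ Y → P Y x) → (∀ x X, P X x → 1 ≤ X) →
  (∀ ε : ℝ, 0 < ε → ∃ C : ℝ, 0 ≤ C ∧ ∀ X H : ℝ, 1 ≤ X → 1 ≤ H →
    {x | P X x ∧ h x ≤ H}.Finite ∧ ({x | P X x ∧ h x ≤ H}.ncard : ℝ) ≤ C * H * X ^ (θ + ε)) →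
  ∀ (g : ℕ) (ε : ℝ), 0 < ε → ∃ C : ℝ, 0 ≤ C ∧ ∀ X H : ℝ, 1 ≤ X → 1 ≤ H →
    {x : Fin g → α | (∃ Y : Fin g → ℝ, (∀ i, P (Y i) (x i)) ∧ ∏ i, Y i ≤ X) ∧
      ∀ i, h (x i) ≤ H}.Finite ∧
    ({x : Fin g → α | (∃ Y : Fin g → ℝ, (∀ i, P (Y i) (x i)) ∧ ∏ i, Y i ≤ X) ∧
      ∀ i, h (x i) ≤ H}.ncard : ℝ) ≤ C * H ^ g * X ^ (θ + ε)

/-- the result -/
def MainS : Prop := ∀ (K : Type) [Field K] [NumberField K] (g : ℕ) (ε : ℝ), 0 < ε →
  ∃ C : ℝ, ∀ X H : ℝ, 1 ≤ X → 1 ≤ H → (Classes K g X H).Finite ∧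
    ((Classes K g X H).ncard : ℝ) ≤ C * H ^ g * X ^ ((2 : ℝ) / 3 + ε)

end Pool.Agent.TH876.FH
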