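import Mathlib
import Pool.Agent.TH876.FH.Def

set_option autoImplicit false

/-!
# The archimedean comparison of the modular invariant and the discriminant
-/

namespace Pool.Agent.TH876.FH

open UpperHalfPlane ModularForm Filter Asymptotics Topology
open scoped MatrixGroups Real Modular

private lemma Ana_tendsto_E4 :
    Tendsto (fun τ : ℍ => (ModularForm.E₄ : ℍ → ℂ) τ) atImInfty (𝓝 1) := by
  have h1 : (cuspFunction 1 (ModularForm.E₄ : ℍ → ℂ)) 0 = 1 := by
    have := EisensteinSeries.E_qExpansion_coeff_zero (k := 4) (by norm_num) ⟨2, rfl⟩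
    rw [qExpansion_coeff] at this
    simpa using this
  have ha := (ModularFormClass.analyticAt_cuspFunction_zero ModularForm.E₄ one_pos
    one_mem_strictPeriods_SL).continuousAt.tendsto
  rw [h1] at ha
  have h2 := ha.comp (qParam_tendsto_atImInfty (h := 1) one_pos)
  refine h2.congr fun τ => ?_
  exact SlashInvariantFormClass.eq_cuspFunction ModularForm.E₄ τ one_mem_strictPeriods_SL one_ne_zero

private lemma Ana_norm_petersson (k : ℕ) (f : ℍ → ℂ) (τ : ℍ) :
    ‖petersson (k : ℤ) f f τ‖ = ‖f τ‖ ^ 2 * τ.im ^ k := by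
  rw [petersson]
  simp only [norm_mul, RCLike.norm_conj, zpow_natCast, norm_pow, Complex.norm_real, Real.norm_eq_abs,
    abs_of_pos τ.im_pos]
  ring

private lemma Ana_sq {a b : ℝ} (ha : 0 ≤ a) (hb : 0 ≤ b) (h : a ^ 2 = b ^ 2) : a = b :=
  (pow_left_inj₀ ha hb two_ne_zero).mp h

private lemma Ana_inv_disc (g : SL(2, ℤ)) (τ : ℍ) :
    ‖discriminant (g • τ)‖ * (g • τ).im ^ 6 = ‖discriminant τ‖ * τ.im ^ 6 := by
  have h := SlashInvariantFormClass.norm_petersson_smul (k := 12) (τ := τ) (Γ := 𝒮ℒ)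
    (g := (Matrix.SpecialLinearGroup.mapGL ℝ g)) (f := CuspForm.discriminant)
    (f' := CuspForm.discriminant) (by exact ⟨g, rfl⟩)
  rw [CuspForm.coe_discriminant] at h
  have h' := (Ana_norm_petersson 12 discriminant (g • τ)).symm.trans
    (h.trans (Ana_norm_petersson 12 discriminant τ))
  have h1 : (‖discriminant (g • τ)‖ * (g • τ).im ^ 6) ^ 2 = (‖discriminant τ‖ * τ.im ^ 6) ^ 2 := by
    rw [mul_pow, mul_pow, ← pow_mul, ← pow_mul, show 6 * 2 = 12 from rfl]
    exact h'
  have p1 := (g • τ).im_pos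
  have p2 := τ.im_pos
  refine Ana_sq ?_ ?_ h1
  · exact mul_nonneg (norm_nonneg _) (pow_nonneg p1.le _)
  · exact mul_nonneg (norm_nonneg _) (pow_nonneg p2.le _)

private lemma Ana_inv_E4 (g : SL(2, ℤ)) (τ : ℍ) :
    ‖ModularForm.E₄ (g • τ)‖ * (g • τ).im ^ 2 = ‖ModularForm.E₄ τ‖ * τ.im ^ 2 := by
  have h := SlashInvariantFormClass.norm_petersson_smul (k := 4) (τ := τ) (Γ := 𝒮ℒ)
    (g := (Matrix.SpecialLinearGroup.mapGL ℝ g)) (f := ModularForm.E₄)
    (f' := ModularForm.E₄) (by exact ⟨g, rfl⟩)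
  have h' := (Ana_norm_petersson 4 ModularForm.E₄ (g • τ)).symm.trans
    (h.trans (Ana_norm_petersson 4 ModularForm.E₄ τ))
  have h1 : (‖ModularForm.E₄ (g • τ)‖ * (g • τ).im ^ 2) ^ 2 =
      (‖ModularForm.E₄ τ‖ * τ.im ^ 2) ^ 2 := by
    rw [mul_pow, mul_pow, ← pow_mul, ← pow_mul]
    exact h'
  have p1 := (g • τ).im_pos
  have p2 := τ.im_pos
  refine Ana_sq ?_ ?_ h1
  · exact mul_nonneg (norm_nonneg _) (pow_nonneg p1.le _)
  · exact mul_nonneg (norm_nonneg _) (pow_nonneg p2.le _)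

private lemma Ana_arch_smul (g : SL(2, ℤ)) (τ : ℍ) : arch (g • τ) = arch τ := by
  rw [arch, arch, Ana_inv_disc]

private lemma Ana_j_smul (g : SL(2, ℤ)) (τ : ℍ) : ‖jInv (g • τ)‖ = ‖jInv τ‖ := by
  have p1 := (g • τ).im_pos
  have p2 := τ.im_pos
  have key : ∀ σ : ℍ, ‖jInv σ‖ =
      (‖ModularForm.E₄ σ‖ * σ.im ^ 2) ^ 3 / (‖discriminant σ‖ * σ.im ^ 6) := by
    intro σ
    have p := σ.im_pos
    have q := norm_pos_iff.mpr (discriminant_ne_zero σ)
    rw [jInv, norm_div, norm_pow]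
    field_simp
  rw [key, key, Ana_inv_disc, Ana_inv_E4]

private lemma Ana_cont_disc : Continuous (discriminant : ℍ → ℂ) := by
  have := (ModularFormClass.holo CuspForm.discriminant).continuous
  exact this

private lemma Ana_cont_E4 : Continuous (ModularForm.E₄ : ℍ → ℂ) :=
  (ModularFormClass.holo ModularForm.E₄).continuous

private lemma Ana_cont_arch : Continuous arch := by
  unfold arch
  refine Continuous.neg (Continuous.log ?_ ?_)
  · exact Ana_cont_disc.norm.mul (UpperHalfPlane.continuous_im.pow 6)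
  · intro τ
    have p := τ.im_pos
    have q := norm_pos_iff.mpr (discriminant_ne_zero τ)
    positivity

private lemma Ana_cont_j : Continuous jInv := by
  unfold jInv
  exact (Ana_cont_E4.pow 3).div Ana_cont_disc discriminant_ne_zero

private lemma Ana_bounds : ∃ Y : ℝ, 1 ≤ Y ∧ ∀ τ : ℍ, Y ≤ τ.im →
    (Real.exp (-(2 * π * τ.im)) / 2 ≤ ‖discriminant τ‖ ∧
      ‖discriminant τ‖ ≤ 2 * Real.exp (-(2 * π * τ.im))) ∧
    1 / 2 ≤ ‖ModularForm.E₄ τ‖ ∧ ‖ModularForm.E₄ τ‖ ≤ 2 := by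
  have h1 := Ana_tendsto_E4.norm
  rw [norm_one] at h1
  have h2 := tendsto_atImInfty_tprod_one_sub_eta_q_pow.norm
  rw [norm_one] at h2
  have e1 := h1.eventually (Icc_mem_nhds (show (1 : ℝ) / 2 < 1 by norm_num)
    (show (1 : ℝ) < 2 by norm_num))
  have e2 := h2.eventually (Icc_mem_nhds (show (1 : ℝ) / 2 < 1 by norm_num)
    (show (1 : ℝ) < 2 by norm_num))
  obtain ⟨A, hA⟩ := (atImInfty_mem _).mp (e1.and e2)
  refine ⟨max A 1, le_max_right _ _, fun τ hτ => ?_⟩
  obtain ⟨g1, g2⟩ := hA τ ((le_max_left _ _).trans hτ)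
  refine ⟨?_, g1.1, g1.2⟩
  have hq : ‖Function.Periodic.qParam 1 (τ : ℂ)‖ = Real.exp (-(2 * π * τ.im)) := by
    simp [Function.Periodic.qParam, Complex.norm_exp]
  rw [discriminant_eq_q_prod, norm_mul, hq]
  have p := Real.exp_pos (-(2 * π * τ.im))
  constructor
  · have := mul_le_mul_of_nonneg_left g2.1 p.le
    linarith
  · have := mul_le_mul_of_nonneg_left g2.2 p.le
    linarith

/-- near the cusp both functions are `2 π Im τ` up to a logarithm -/
private lemma Ana_asymp {τ : ℍ}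
    (h : (Real.exp (-(2 * π * τ.im)) / 2 ≤ ‖discriminant τ‖ ∧
      ‖discriminant τ‖ ≤ 2 * Real.exp (-(2 * π * τ.im))) ∧
    1 / 2 ≤ ‖ModularForm.E₄ τ‖ ∧ ‖ModularForm.E₄ τ‖ ≤ 2) :
    (2 * π * τ.im - Real.log 2 - 6 * Real.log τ.im ≤ arch τ ∧
      arch τ ≤ 2 * π * τ.im + Real.log 2 - 6 * Real.log τ.im) ∧
    2 * π * τ.im - Real.log 16 ≤ Real.log (max ‖jInv τ‖ 1) ∧
      Real.log (max ‖jInv τ‖ 1) ≤ 2 * π * τ.im + Real.log 16 := by
  obtain ⟨⟨h2, h3⟩, h4, h5⟩ := h
  have p := τ.im_pos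
  have q := norm_pos_iff.mpr (discriminant_ne_zero τ)
  have e := Real.exp_pos (-(2 * π * τ.im))
  have l2 : Real.log (Real.exp (-(2 * π * τ.im)) / 2) ≤ Real.log ‖discriminant τ‖ :=
    Real.log_le_log (by positivity) h2
  have l3 : Real.log ‖discriminant τ‖ ≤ Real.log (2 * Real.exp (-(2 * π * τ.im))) :=
    Real.log_le_log q h3
  rw [Real.log_div e.ne' two_ne_zero, Real.log_exp] at l2
  rw [Real.log_mul two_ne_zero e.ne', Real.log_exp] at l3
  have ha : arch τ = -Real.log ‖discriminant τ‖ - 6 * Real.log τ.im := by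
    rw [arch, Real.log_mul q.ne' (by positivity), Real.log_pow]
    push_cast
    ring
  refine ⟨⟨by rw [ha]; linarith, by rw [ha]; linarith⟩, ?_, ?_⟩
  · have k1 : Real.exp (2 * π * τ.im) / 16 ≤ ‖jInv τ‖ := by
      rw [jInv, norm_div, norm_pow, le_div_iff₀ q]
      have k2 : (1 / 2 : ℝ) ^ 3 ≤ ‖ModularForm.E₄ τ‖ ^ 3 := pow_le_pow_left₀ (by norm_num) h4 3
      have k3 : Real.exp (2 * π * τ.im) / 16 * ‖discriminant τ‖ ≤
          Real.exp (2 * π * τ.im) / 16 * (2 * Real.exp (-(2 * π * τ.im))) :=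
        mul_le_mul_of_nonneg_left h3 (by positivity)
      have k4 : Real.exp (2 * π * τ.im) * Real.exp (-(2 * π * τ.im)) = 1 := by
        rw [← Real.exp_add, add_neg_cancel, Real.exp_zero]
      have k5 : Real.exp (2 * π * τ.im) / 16 * (2 * Real.exp (-(2 * π * τ.im))) = 1 / 8 := by
        linear_combination (1 / 8) * k4
      linarith
    have k2 : Real.log (Real.exp (2 * π * τ.im) / 16) ≤ Real.log (max ‖jInv τ‖ 1) :=
      Real.log_le_log (by positivity) (k1.trans (le_max_left _ _))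
    rwa [Real.log_div (Real.exp_pos _).ne' (by norm_num), Real.log_exp] at k2
  · have k1 : max ‖jInv τ‖ 1 ≤ 16 * Real.exp (2 * π * τ.im) := by
      refine max_le ?_ ?_
      · rw [jInv, norm_div, norm_pow, div_le_iff₀ q]
        have k2 : ‖ModularForm.E₄ τ‖ ^ 3 ≤ (2 : ℝ) ^ 3 := pow_le_pow_left₀ (norm_nonneg _) h5 3
        have k3 : 16 * Real.exp (2 * π * τ.im) * (Real.exp (-(2 * π * τ.im)) / 2) ≤
            16 * Real.exp (2 * π * τ.im) * ‖discriminant τ‖ :=
          mul_le_mul_of_nonneg_left h2 (by positivity)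
        have k4 : Real.exp (2 * π * τ.im) * Real.exp (-(2 * π * τ.im)) = 1 := by
          rw [← Real.exp_add, add_neg_cancel, Real.exp_zero]
        have k5 : 16 * Real.exp (2 * π * τ.im) * (Real.exp (-(2 * π * τ.im)) / 2) = 8 := by
          linear_combination 8 * k4
        linarith
      · have : 1 ≤ Real.exp (2 * π * τ.im) := Real.one_le_exp (by positivity)
        linarith
    have k2 : Real.log (max ‖jInv τ‖ 1) ≤ Real.log (16 * Real.exp (2 * π * τ.im)) :=
      Real.log_le_log (by positivity) k1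
    rw [Real.log_mul (by norm_num) (Real.exp_pos _).ne', Real.log_exp] at k2
    linarith

/-- reduction to the fundamental domain -/
private lemma Ana_reduce {P : ℝ → ℝ → Prop}
    (h : ∀ τ ∈ ModularGroup.fd, P (arch τ) ‖jInv τ‖) (τ : ℍ) : P (arch τ) ‖jInv τ‖ := by
  obtain ⟨g, hg⟩ := ModularGroup.exists_smul_mem_fd τ
  have := h _ hg
  rwa [Ana_arch_smul, Ana_j_smul] at this

theorem ana : AnaS := by
  obtain ⟨Y, hY1, hY⟩ := Ana_bounds
  obtain ⟨C1, hC1⟩ := (ModularGroup.isCompact_truncatedFundamentalDomain Y).exists_bound_of_continuousOn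
    Ana_cont_arch.continuousOn
  obtain ⟨C2, hC2⟩ := (ModularGroup.isCompact_truncatedFundamentalDomain Y).exists_bound_of_continuousOn
    (f := fun τ => Real.log (max ‖jInv τ‖ 1))
    (Continuous.log (Ana_cont_j.norm.max continuous_const)
      (fun τ => (lt_max_of_lt_right one_pos).ne')).continuousOn
  have l16 : 0 ≤ Real.log 16 := Real.log_nonneg (by norm_num)
  have l2 : 0 ≤ Real.log 2 := Real.log_nonneg (by norm_num)
  refine ⟨fun δ hδ => ?_, ?_⟩
  · set s : ℝ := δ * (2 * π) / (6 * (1 + δ)) with hs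
    have hs0 : 0 < s := by positivity
    set c1 : ℝ := (1 + δ) * |C1| + |C2| with hc1
    set c2 : ℝ := Real.log 16 + (1 + δ) * Real.log 2 + |6 * (1 + δ) * (-1 - Real.log s)| with hc2
    refine ⟨c1 + c2, Ana_reduce (P := fun a b => Real.log (max b 1) ≤ (1 + δ) * a + (c1 + c2))
      fun τ hτ => ?_⟩
    have hc10 : 0 ≤ c1 := by positivity
    have hc20 : 0 ≤ c2 := by positivity
    by_cases hy : τ.im ≤ Y
    · have g1 := hC1 τ ⟨hτ, hy⟩
      have g2 := hC2 τ ⟨hτ, hy⟩
      rw [Real.norm_eq_abs] at g1 g2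
      have g3 : -|C1| ≤ arch τ := by
        have := neg_abs_le (arch τ)
        have := g1.trans (le_abs_self C1)
        linarith
      have g4 : Real.log (max ‖jInv τ‖ 1) ≤ |C2| :=
        (le_abs_self _).trans (g2.trans (le_abs_self _))
      have g5 : (1 + δ) * -|C1| ≤ (1 + δ) * arch τ := mul_le_mul_of_nonneg_left g3 (by positivity)
      linarith
    · obtain ⟨⟨g1, g2⟩, g3, g4⟩ := Ana_asymp (hY τ (not_le.mp hy).le)
      have p := τ.im_pos
      have k1 : Real.log τ.im ≤ s * τ.im - 1 - Real.log s := by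
        have := Real.log_le_sub_one_of_pos (show 0 < s * τ.im by positivity)
        rw [Real.log_mul hs0.ne' p.ne'] at this
        linarith
      have k2 : 6 * (1 + δ) * Real.log τ.im ≤ 6 * (1 + δ) * (s * τ.im - 1 - Real.log s) :=
        mul_le_mul_of_nonneg_left k1 (by positivity)
      have k3 : 6 * (1 + δ) * s = δ * (2 * π) := by
        rw [hs]
        field_simp
      have k4 : (1 + δ) * (2 * π * τ.im - Real.log 2 - 6 * Real.log τ.im) ≤ (1 + δ) * arch τ :=
        mul_le_mul_of_nonneg_left g1 (by positivity)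
      have k5 := le_abs_self (-(6 * (1 + δ) * (-1 - Real.log s)))
      rw [abs_neg] at k5
      have k6 := le_abs_self (6 * (1 + δ) * (-1 - Real.log s))
      have k7 : 6 * (1 + δ) * (s * τ.im - 1 - Real.log s) =
          δ * (2 * π) * τ.im + 6 * (1 + δ) * (-1 - Real.log s) := by
        linear_combination τ.im * k3
      have k8 : (1 + δ) * (2 * π * τ.im - Real.log 2 - 6 * Real.log τ.im) =
          2 * π * τ.im + δ * (2 * π) * τ.im - (1 + δ) * Real.log 2 -
            6 * (1 + δ) * Real.log τ.im := by ring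
      linarith
  · refine ⟨|C1| + |C2| + Real.log 16 + Real.log 2, Ana_reduce
      (P := fun a b => a ≤ Real.log (max b 1) + (|C1| + |C2| + Real.log 16 + Real.log 2))
      fun τ hτ => ?_⟩
    have a1 := abs_nonneg C1
    have a2 := abs_nonneg C2
    have a3 : 0 ≤ Real.log (max ‖jInv τ‖ 1) := Real.log_nonneg (le_max_right _ _)
    by_cases hy : τ.im ≤ Y
    · have g1 := hC1 τ ⟨hτ, hy⟩
      rw [Real.norm_eq_abs] at g1
      have g2 := (le_abs_self _).trans (g1.trans (le_abs_self _))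
      linarith
    · obtain ⟨⟨g1, g2⟩, g3, g4⟩ := Ana_asymp (hY τ (not_le.mp hy).le)
      have : 0 ≤ Real.log τ.im := Real.log_nonneg (hY1.trans (not_le.mp hy).le)
      linarith

end Pool.Agent.TH876.FH
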