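import Mathlib
import Pool.Agent.TH876.FH.Def

/-!
# The Faltings height and the height of the modular invariant (job 3765, helper986)
-/

set_option autoImplicit false

namespace Pool.Agent.TH876.FH

open NumberField IsDedekindDomain

theorem Hj_height {K : Type} [Field K] [NumberField K] (j : K) :
    Height.logHeight₁ j = ∑ w : InfinitePlace K, (w.mult : ℝ) * Real.log (max (w j) 1) +
      ∑ᶠ v : HeightOneSpectrum (𝓞 K), Real.log (max (FinitePlace.mk v j) 1) := by
  rw [NumberField.logHeight₁_eq]
  congr 1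
  · refine Finset.sum_congr rfl fun w _ => ?_
    rw [Real.posLog_eq_log_max_one (apply_nonneg _ _), max_comm]
  · rw [← finsum_comp_equiv (FinitePlace.equivHeightOneSpectrum (K := K)).symm]
    refine finsum_congr fun v => ?_
    rw [Real.posLog_eq_log_max_one (apply_nonneg _ _), max_comm]
    rfl

theorem Hj_faltings {K : Type} [Field K] [NumberField K] (j : K)
    (τ : InfinitePlace K → UpperHalfPlane) :
    12 * Module.finrank ℚ K * faltings j τ =
      ∑ᶠ v : HeightOneSpectrum (𝓞 K), Real.log (max (FinitePlace.mk v j) 1) +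
        ∑ w : InfinitePlace K, (w.mult : ℝ) * arch (τ w) := by
  have h : (12 * (Module.finrank ℚ K : ℝ)) ≠ 0 := by
    have : 0 < Module.finrank ℚ K := Module.finrank_pos
    positivity
  unfold faltings
  rw [mul_div_cancel₀ _ h]

theorem Hj_norm {K : Type} [Field K] [NumberField K] (j : K)
    (τ : InfinitePlace K → UpperHalfPlane) (h : IsPeriod j τ) (w : InfinitePlace K) :
    ‖jInv (τ w)‖ = w j := by
  rw [h w, InfinitePlace.norm_embedding_eq]

theorem hj (h : AnaS) : HjS := by
  intro K _ _
  refine ⟨fun δ hδ => ?_, ?_⟩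
  · obtain ⟨c, hc⟩ := h.1 δ hδ
    refine ⟨c * ∑ w : InfinitePlace K, (w.mult : ℝ), fun j τ hj => ?_⟩
    rw [Hj_height, Hj_faltings]
    have h1 : ∑ w : InfinitePlace K, (w.mult : ℝ) * Real.log (max (w j) 1) ≤
        ∑ w : InfinitePlace K, (w.mult : ℝ) * ((1 + δ) * arch (τ w) + c) := by
      refine Finset.sum_le_sum fun w _ => ?_
      apply mul_le_mul_of_nonneg_left _ (Nat.cast_nonneg _)
      rw [← Hj_norm j τ hj w]
      exact hc (τ w)
    have h2 : ∑ w : InfinitePlace K, (w.mult : ℝ) * ((1 + δ) * arch (τ w) + c) =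
        (1 + δ) * ∑ w : InfinitePlace K, (w.mult : ℝ) * arch (τ w) +
          c * ∑ w : InfinitePlace K, (w.mult : ℝ) := by
      rw [Finset.mul_sum, Finset.mul_sum, ← Finset.sum_add_distrib]
      refine Finset.sum_congr rfl fun w _ => ?_
      ring
    have h3 : 0 ≤ ∑ᶠ v : HeightOneSpectrum (𝓞 K), Real.log (max (FinitePlace.mk v j) 1) :=
      finsum_nonneg fun v => Real.log_nonneg (le_max_right _ _)
    nlinarith
  · obtain ⟨c, hc⟩ := h.2
    refine ⟨c * ∑ w : InfinitePlace K, (w.mult : ℝ), fun j τ hj => ?_⟩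
    rw [Hj_height, Hj_faltings]
    have h1 : ∑ w : InfinitePlace K, (w.mult : ℝ) * arch (τ w) ≤
        ∑ w : InfinitePlace K, (w.mult : ℝ) * (Real.log (max (w j) 1) + c) := by
      refine Finset.sum_le_sum fun w _ => ?_
      apply mul_le_mul_of_nonneg_left _ (Nat.cast_nonneg _)
      rw [← Hj_norm j τ hj w]
      exact hc (τ w)
    have h2 : ∑ w : InfinitePlace K, (w.mult : ℝ) * (Real.log (max (w j) 1) + c) =
        ∑ w : InfinitePlace K, (w.mult : ℝ) * Real.log (max (w j) 1) +
          c * ∑ w : InfinitePlace K, (w.mult : ℝ) := by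
      rw [Finset.mul_sum, ← Finset.sum_add_distrib]
      refine Finset.sum_congr rfl fun w _ => ?_
      ring
    linarith

end Pool.Agent.TH876.FH
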