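import Mathlib
import Pool.Agent.TH876.FH.Def
import Pool.Agent.TH876.KR.Fin
import Pool.Agent.TH876.KR.Main

set_option autoImplicit false

/-!
# The count of Legendre parameters
-/

namespace Pool.Agent.TH876.FH

open NumberField IsDedekindDomain Pool.Agent.H691R3 Pool.Agent.TH876.Loc

section Cnt

variable {K : Type} [Field K] [NumberField K]

private theorem Cnt_val_eq (v : Pr K) (x : K) :
    fv v x = ((WithZeroMulInt.toNNReal (NumberField.HeightOneSpectrum.absNorm_ne_zero v)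
      (v.valuation K x) : NNReal) : ℝ) :=
  NumberField.FinitePlace.norm_embedding' (v := v) (x := x)

private theorem Cnt_lt_one (v : Pr K) (x : K) : v.valuation K x < 1 ↔ fv v x < 1 := by
  rw [Cnt_val_eq, NNReal.coe_lt_one]
  exact (WithZeroMulInt.toNNReal_lt_one_iff
    (NumberField.HeightOneSpectrum.one_lt_absNorm_nnreal v)).symm

private theorem Cnt_le_one (v : Pr K) (x : K) : v.valuation K x ≤ 1 ↔ fv v x ≤ 1 := by
  rw [Cnt_val_eq, NNReal.coe_le_one]
  exact (WithZeroMulInt.toNNReal_le_one_iff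
    (NumberField.HeightOneSpectrum.one_lt_absNorm_nnreal v)).symm

private theorem Cnt_eq_one (v : Pr K) (x : K) : v.valuation K x = 1 ↔ fv v x = 1 := by
  constructor
  · intro h
    refine le_antisymm ((Cnt_le_one v x).1 h.le) (not_lt.1 fun h1 => ?_)
    exact absurd ((Cnt_lt_one v x).2 h1) (by rw [h]; exact lt_irrefl _)
  · intro h
    refine le_antisymm ((Cnt_le_one v x).2 h.le) (not_lt.1 fun h1 => ?_)
    exact absurd ((Cnt_lt_one v x).1 h1) (by rw [h]; exact lt_irrefl _)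

/-- the three points -/
private def Cnt_a : Fin 3 → Fin 2 → K := ![![0, 1], ![1, 0], ![1, 1]]

private theorem Cnt_ha (i j : Fin 3) (hij : i ≠ j) :
    KR.form (Cnt_a (K := K) i) (Cnt_a (K := K) j) ≠ 0 := by
  fin_cases i <;> fin_cases j <;> simp_all [KR.form, Cnt_a]

private theorem Cnt_form (l : K) (i : Fin 3) :
    KR.form (Cnt_a (K := K) i) ![l, 1] = ![-l, 1, 1 - l] i := by
  fin_cases i <;> simp [KR.form, Cnt_a]

private theorem Cnt_tt (l : K) : KR.tt (Cnt_a (K := K)) ![l, 1] = -l := by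
  unfold KR.tt
  rw [Cnt_form, Cnt_form]
  simp [KR.cc, KR.form, Cnt_a]

private theorem Cnt_hgt {l : K} (h0 : l ≠ 0) (h1 : l ≠ 1) :
    hgt (-l) ≤ (Height.totalWeight K * Real.log 2 +
      Height.logHeight (KR.mat (Cnt_a (K := K)))) + Height.logHeight₁ l := by
  have h2 := KR.hgt_tt (a := Cnt_a (K := K)) (fun i j hij => Cnt_ha i j hij) (x := ![l, 1])
    (fun i => by
      rw [Cnt_form]
      fin_cases i
      · simpa using h0
      · simp
      · simpa [sub_eq_zero] using h1.symm)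
  rw [Cnt_tt] at h2
  rwa [Height.logHeight₁_eq_logHeight]

private theorem Cnt_sp {l : K} (hl : Pt (-l)) {T S2 : Finset (Pr K)}
    (hS2 : ∀ v, v ∉ S2 → fv v (2 : K) = 1)
    (hT : ∀ v : Pr K, v ∉ T → v.valuation K (2 : K) = 1 →
      v.valuation K l = 1 ∧ v.valuation K (1 - l) = 1) :
    nn (sp (-l)) ≤ nn S2 * nn T := by
  classical
  have h1 : sp (-l) ⊆ S2 ∪ (T \ S2) := by
    intro v hv
    by_contra h
    rw [Finset.mem_union, Finset.mem_sdiff, not_or, not_and, not_not] at h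
    have hvT : v ∉ T := fun h2 => h.1 (h.2 h2)
    obtain ⟨h3, h4⟩ := hT v hvT ((Cnt_eq_one v 2).2 (hS2 v h.1))
    rw [Cnt_eq_one] at h3 h4
    rw [mem_sp hl] at hv
    apply hv
    refine ⟨by rw [(fv v).map_neg]; exact h3, ?_⟩
    rw [neg_add_eq_sub]
    exact h4
  have h2 : nn (S2 ∪ (T \ S2)) = nn S2 * nn (T \ S2) := by
    unfold nn
    exact Finset.prod_union Finset.disjoint_sdiff
  calc nn (sp (-l)) ≤ nn (S2 ∪ (T \ S2)) := nn_mono h1
    _ = nn S2 * nn (T \ S2) := h2
    _ ≤ nn S2 * nn T :=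
      mul_le_mul_of_nonneg_left (nn_mono Finset.sdiff_subset) (nn_pos S2).le

end Cnt

theorem cnt : CntS := by
  classical
  intro K _ _ ε hε
  obtain ⟨C, hC0, hC⟩ := KR.main_count K ε hε
  set S2 : Finset (Pr K) := (fv_support_finite (two_ne_zero' K)).toFinset with hS2
  have hS2' : ∀ v, v ∉ S2 → fv v (2 : K) = 1 := by
    intro v hv
    by_contra h
    exact hv (by rw [hS2, Set.Finite.mem_toFinset]; exact h)
  set c : ℝ := Height.totalWeight K * Real.log 2 +
      Height.logHeight (KR.mat (Cnt_a (K := K))) with hc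
  have hc0 : 0 ≤ c := add_nonneg (mul_nonneg (Nat.cast_nonneg _) (Real.log_nonneg (by norm_num)))
    (Height.logHeight_nonneg _)
  have hn0 := nn_pos S2
  have hn1 := one_le_nn S2
  refine ⟨C * (1 + c) * nn S2 ^ ((2 : ℝ) / 3 + ε), by positivity, ?_⟩
  intro X H hX hH
  set B : ℝ := C * ((1 + c) * H) * (nn S2 * X) ^ ((2 : ℝ) / 3 + ε) with hB
  have hbound : ∀ G : Finset K, (G : Set K) ⊆ {l : K | Unit2 X l ∧ Height.logHeight₁ l ≤ H} →
      (G.card : ℝ) ≤ B := by
    intro G hG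
    rw [← Finset.card_image_of_injective G neg_injective]
    refine hC (nn S2 * X) ((1 + c) * H) (by nlinarith) (by nlinarith) _ ?_
    intro t ht
    obtain ⟨l, hl, rfl⟩ := Finset.mem_image.1 ht
    obtain ⟨⟨h0, h1, T, hTX, hT⟩, hh⟩ := hG hl
    have hPt : Pt (-l) := ⟨neg_ne_zero.2 h0, by
      rw [neg_add_eq_sub]
      exact sub_ne_zero.2 (Ne.symm h1)⟩
    refine ⟨hPt, (Cnt_sp hPt hS2' hT).trans ?_, ?_⟩
    · exact mul_le_mul_of_nonneg_left hTX hn0.le
    · have h2 := Cnt_hgt h0 h1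
      nlinarith
  have hfin : {l : K | Unit2 X l ∧ Height.logHeight₁ l ≤ H}.Finite := by
    by_contra hinf
    obtain ⟨G, hGV, hGc⟩ := Set.Infinite.exists_subset_card_eq hinf (⌊B⌋₊ + 1)
    have h1 := hbound G hGV
    have h2 := Nat.lt_floor_add_one B
    rw [hGc] at h1
    push_cast at h1
    linarith
  refine ⟨hfin, ?_⟩
  rw [Set.ncard_eq_toFinset_card _ hfin]
  refine (hbound hfin.toFinset (by rw [Set.Finite.coe_toFinset])).trans (le_of_eq ?_)
  rw [hB, Real.mul_rpow hn0.le (by linarith)]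
  ring

end Pool.Agent.TH876.FH
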