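import Mathlib
import Pool.Agent.TH876.FH.Def

set_option autoImplicit false

/-!
# Faltings heights of products of elliptic curves: assembly
-/

namespace Pool.Agent.TH876.FH

open NumberField IsDedekindDomain

lemma Fin_one_le {K : Type} [Field K] [NumberField K] {X : ℝ} {l : K} (h : Unit2 X l) :
    1 ≤ X := by
  obtain ⟨_, _, T, hT, _⟩ := h
  refine le_trans ?_ hT
  rw [← Nat.cast_prod]
  have h1 : 1 ≤ ∏ v ∈ T, Ideal.absNorm v.asIdeal := by
    rw [Nat.one_le_iff_ne_zero, Finset.prod_ne_zero_iff]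
    intro v _ h0
    rw [Ideal.absNorm_eq_zero_iff] at h0
    exact v.ne_bot h0
  exact_mod_cast h1

/-- the map from the Legendre parameters to the modular invariants -/
noncomputable def Fin_map {K : Type} [Field K] (g : ℕ) (x : Fin g → K) : Fin g → K := fun i =>
  256 * ((x i) ^ 2 - x i + 1) ^ 3 / ((x i) ^ 2 * (1 - x i) ^ 2)

theorem main (h1 : HjS) (h2 : LegS) (h3 : LhS) (h4 : CntS) (h5 : ProdS) : MainS := by
  intro K _ _ g ε hε
  have hn : (0 : ℝ) < Module.finrank ℚ K := by exact_mod_cast Module.finrank_pos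
  set n : ℝ := (Module.finrank ℚ K : ℝ) with hnd
  obtain ⟨c1, hc1⟩ := (h1 K).1 1 one_pos
  obtain ⟨c3, hc3⟩ := h3 K
  set c0 : ℝ := |c1| / (24 * n) with hc0
  have hc00 : 0 ≤ c0 := by positivity
  -- lower bound for the Faltings height
  have hF : ∀ (j : K) (τ : InfinitePlace K → UpperHalfPlane), IsPeriod j τ →
      -c0 ≤ faltings j τ := by
    intro j τ hj
    have h6 := hc1 j τ hj
    have h7 := Height.zero_le_logHeight₁ j
    have h8 : 24 * n * c0 = |c1| := by
      rw [hc0]
      field_simp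
    have h9 := le_abs_self c1
    by_contra hcon
    rw [not_le] at hcon
    have h10 : 24 * n * faltings j τ < 24 * n * (-c0) :=
      mul_lt_mul_of_pos_left hcon (by positivity)
    nlinarith
  set C1 : ℝ := (24 * n * (1 + g * c0) + |c1| + |c3|) / 6 + 1 with hC1
  have hC11 : 1 ≤ C1 := by
    have : 0 ≤ (24 * n * (1 + g * c0) + |c1| + |c3|) / 6 := by positivity
    linarith
  obtain ⟨C, hC0, hC⟩ := h5 K (fun X l => Unit2 X l) (fun l => Height.logHeight₁ l) (2 / 3)
    (by norm_num)
    (fun x X Y hx hXY => ⟨hx.1, hx.2.1, by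
      obtain ⟨T, hT, hT'⟩ := hx.2.2
      exact ⟨T, hT.trans hXY, hT'⟩⟩)
    (fun x X hx => Fin_one_le hx) (fun ε' hε' => h4 K ε' hε') g ε hε
  refine ⟨C * C1 ^ g, ?_⟩
  intro X H hX hH
  have hCH : 1 ≤ C1 * H := by nlinarith
  obtain ⟨hfin, hcard⟩ := hC X (C1 * H) hX hCH
  set S : Set (Fin g → K) := {x : Fin g → K | (∃ Y : Fin g → ℝ, (∀ i, Unit2 (Y i) (x i)) ∧
    ∏ i, Y i ≤ X) ∧ ∀ i, Height.logHeight₁ (x i) ≤ C1 * H} with hS
  have hsub : Classes K g X H ⊆ Fin_map g '' S := by
    rintro j ⟨E, τ, hE, hbad, hHt⟩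
    have h6 : ∀ i, ∃ l : K, Unit2 (badNorm (E i)) l ∧ j i * (l ^ 2 * (1 - l) ^ 2) =
        256 * (l ^ 2 - l + 1) ^ 3 := by
      intro i
      obtain ⟨hΔ, htwo, hj, _⟩ := hE i
      obtain ⟨hfinb, l, hl0, hl1, hlj, hl⟩ := h2 K (E i) hΔ htwo
      refine ⟨l, ⟨hl0, hl1, hfinb.toFinset, le_of_eq ?_, ?_⟩, ?_⟩
      · unfold badNorm
        rw [finprod_mem_eq_finite_toFinset_prod _ hfinb]
      · intro v hv h2v
        rw [Set.Finite.mem_toFinset] at hv
        exact hl v (not_not.1 hv) h2v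
      · rw [← hj]
        exact hlj
    choose l hl hlj using h6
    refine ⟨l, ⟨⟨fun i => badNorm (E i), hl, hbad⟩, ?_⟩, ?_⟩
    · intro i
      have h7 := hc3 (j i) (l i) (hl i).1 (hl i).2.1 (hlj i)
      have h8 := hc1 (j i) (τ i) (hE i).2.2.2
      have h9 : faltings (j i) (τ i) ≤ H + g * c0 := by
        have h10 : ∑ k ∈ Finset.univ.erase i, (-c0) ≤
            ∑ k ∈ Finset.univ.erase i, faltings (j k) (τ k) :=
          Finset.sum_le_sum fun k _ => hF (j k) (τ k) (hE k).2.2.2
        rw [Finset.sum_const, nsmul_eq_mul] at h10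
        have h11 : ((Finset.univ.erase i).card : ℝ) ≤ g := by
          have : (Finset.univ.erase i).card ≤ g := by
            refine (Finset.card_erase_le).trans ?_
            rw [Finset.card_univ, Fintype.card_fin]
          exact_mod_cast this
        have h12 := Finset.add_sum_erase Finset.univ (fun k => faltings (j k) (τ k))
          (Finset.mem_univ i)
        have h13 : ((Finset.univ.erase i).card : ℝ) * c0 ≤ g * c0 :=
          mul_le_mul_of_nonneg_right h11 hc00
        linarith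
      have h14 : 24 * n * faltings (j i) (τ i) ≤ 24 * n * (H + g * c0) :=
        mul_le_mul_of_nonneg_left h9 (by positivity)
      have h15 := le_abs_self c1
      have h16 := le_abs_self c3
      have h17 : g * c0 ≤ g * c0 * H := le_mul_of_one_le_right (by positivity) hH
      have h18 : |c1| ≤ |c1| * H := le_mul_of_one_le_right (abs_nonneg _) hH
      have h19 : |c3| ≤ |c3| * H := le_mul_of_one_le_right (abs_nonneg _) hH
      have h20 : 24 * n * (H + g * c0) ≤ 24 * n * ((1 + g * c0) * H) :=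
        mul_le_mul_of_nonneg_left (by linarith) (by positivity)
      have h21 : C1 * H = (24 * n * ((1 + g * c0) * H) + |c1| * H + |c3| * H) / 6 + H := by
        rw [hC1]
        ring
      rw [h21]
      have h22 : Height.logHeight₁ (j i) ≤ 24 * n * faltings (j i) (τ i) + c1 := by
        refine h8.trans (le_of_eq ?_)
        ring
      linarith
    · funext i
      have h7 := (hl i).1
      have h8 : 1 - l i ≠ 0 := sub_ne_zero.2 (Ne.symm (hl i).2.1)
      unfold Fin_map
      rw [div_eq_iff (mul_ne_zero (pow_ne_zero 2 h7) (pow_ne_zero 2 h8)), hlj i]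
  refine ⟨(hfin.image _).subset hsub, ?_⟩
  have h6 : (Classes K g X H).ncard ≤ S.ncard :=
    (Set.ncard_le_ncard hsub (hfin.image _)).trans (Set.ncard_image_le hfin)
  calc ((Classes K g X H).ncard : ℝ) ≤ (S.ncard : ℝ) := by exact_mod_cast h6
    _ ≤ C * (C1 * H) ^ g * X ^ ((2 : ℝ) / 3 + ε) := hcard
    _ = C * C1 ^ g * H ^ g * X ^ ((2 : ℝ) / 3 + ε) := by rw [mul_pow]; ring

end Pool.Agent.TH876.FH
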