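import Mathlib
import Pool.Agent.TH876.FH.Def

set_option autoImplicit false

/-!
# The Legendre parameter of an elliptic curve with full two-torsion
-/

namespace Pool.Agent.TH876.FH

open NumberField IsDedekindDomain

private theorem Leg_vieta {K : Type} [Field K] {b2 b4 b6 e0 e1 e2 : K}
    (h01 : e0 - e1 ≠ 0) (h02 : e0 - e2 ≠ 0) (h12 : e1 - e2 ≠ 0)
    (h0 : 4 * e0 ^ 3 + b2 * e0 ^ 2 + 2 * b4 * e0 + b6 = 0)
    (h1 : 4 * e1 ^ 3 + b2 * e1 ^ 2 + 2 * b4 * e1 + b6 = 0)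
    (h2 : 4 * e2 ^ 3 + b2 * e2 ^ 2 + 2 * b4 * e2 + b6 = 0) :
    b2 = -4 * (e0 + e1 + e2) ∧ 2 * b4 = 4 * (e0 * e1 + e0 * e2 + e1 * e2) ∧
      b6 = -4 * (e0 * e1 * e2) := by
  have g1 : 4 * (e0 ^ 2 + e0 * e1 + e1 ^ 2) + b2 * (e0 + e1) + 2 * b4 = 0 := by
    apply mul_left_cancel₀ h01
    linear_combination h0 - h1
  have g2 : 4 * (e0 ^ 2 + e0 * e2 + e2 ^ 2) + b2 * (e0 + e2) + 2 * b4 = 0 := by
    apply mul_left_cancel₀ h02
    linear_combination h0 - h2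
  have g3 : 4 * (e0 + e1 + e2) + b2 = 0 := by
    apply mul_left_cancel₀ h12
    linear_combination g1 - g2
  have e : b2 = -4 * (e0 + e1 + e2) := by linear_combination g3
  subst e
  have e' : 2 * b4 = 4 * (e0 * e1 + e0 * e2 + e1 * e2) := by linear_combination g1
  refine ⟨rfl, e', ?_⟩
  linear_combination h0 - e0 * e'

private theorem Leg_disc {K : Type} [Field K] [CharZero K] (E : WeierstrassCurve K) {e0 e1 e2 : K}
    (h01 : e0 - e1 ≠ 0) (h02 : e0 - e2 ≠ 0) (h12 : e1 - e2 ≠ 0)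
    (h0 : 4 * e0 ^ 3 + E.b₂ * e0 ^ 2 + 2 * E.b₄ * e0 + E.b₆ = 0)
    (h1 : 4 * e1 ^ 3 + E.b₂ * e1 ^ 2 + 2 * E.b₄ * e1 + E.b₆ = 0)
    (h2 : 4 * e2 ^ 3 + E.b₂ * e2 ^ 2 + 2 * E.b₄ * e2 + E.b₆ = 0) :
    E.Δ = 16 * ((e0 - e1) * (e0 - e2) * (e1 - e2)) ^ 2 ∧
      E.c₄ = 16 * (e0 ^ 2 + e1 ^ 2 + e2 ^ 2 - e0 * e1 - e0 * e2 - e1 * e2) := by
  obtain ⟨k2, k4, k6⟩ := Leg_vieta h01 h02 h12 h0 h1 h2
  have k4' : E.b₄ = 2 * (e0 * e1 + e0 * e2 + e1 * e2) := by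
    have h : (2 : K) ≠ 0 := two_ne_zero
    apply mul_left_cancel₀ h
    linear_combination k4
  have hb := E.b_relation
  constructor
  · have h : (4 : K) ≠ 0 := by norm_num
    apply mul_left_cancel₀ h
    rw [WeierstrassCurve.Δ]
    rw [k2, k4', k6] at hb ⊢
    linear_combination (-(-4 * (e0 + e1 + e2)) ^ 2) * hb
  · rw [WeierstrassCurve.c₄, k2, k4']
    ring

private theorem Leg_root {K : Type} [Field K] (E : WeierstrassCurve K)
    (C : WeierstrassCurve.VariableChange K) {e : K}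
    (h : 4 * e ^ 3 + E.b₂ * e ^ 2 + 2 * E.b₄ * e + E.b₆ = 0) :
    4 * ((C.u⁻¹ : Kˣ) ^ 2 * (e - C.r)) ^ 3 + (C • E).b₂ * ((C.u⁻¹ : Kˣ) ^ 2 * (e - C.r)) ^ 2 +
      2 * (C • E).b₄ * ((C.u⁻¹ : Kˣ) ^ 2 * (e - C.r)) + (C • E).b₆ = 0 := by
  rw [WeierstrassCurve.variableChange_b₂, WeierstrassCurve.variableChange_b₄,
    WeierstrassCurve.variableChange_b₆]
  linear_combination ((C.u⁻¹ : Kˣ) : K) ^ 6 * h

section val

variable {K : Type} [Field K] {Γ : Type} [LinearOrderedCommGroupWithZero Γ] (v : Valuation K Γ)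

private theorem Leg_two (n : ℕ) (h : v 2 = 1) : v (2 ^ n) = 1 := by
  rw [map_pow, h, one_pow]

private theorem Leg_nat (n : ℕ) : v (n : K) ≤ 1 := by
  induction n with
  | zero => simp
  | succ n ih =>
    push_cast
    exact (v.map_add _ _).trans (max_le ih (by simp))

private theorem Leg_int {b2 b4 b6 e : K} (h2 : v 2 = 1) (k2 : v b2 ≤ 1) (k4 : v b4 ≤ 1)
    (k6 : v b6 ≤ 1) (h : 4 * e ^ 3 + b2 * e ^ 2 + 2 * b4 * e + b6 = 0) : v e ≤ 1 := by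
  by_contra hc
  rw [not_le] at hc
  have h4 : v 4 = 1 := by
    have := Leg_two v 2 h2
    norm_num at this
    exact this
  have e1 : 4 * e ^ 3 = -(b2 * e ^ 2 + 2 * b4 * e + b6) := by linear_combination h
  have e2 : v (4 * e ^ 3) = v e ^ 3 := by rw [map_mul, h4, one_mul, map_pow]
  have e3 : v (b2 * e ^ 2 + 2 * b4 * e + b6) ≤ v e ^ 2 := by
    refine (v.map_add _ _).trans (max_le ((v.map_add _ _).trans (max_le ?_ ?_)) ?_)
    · rw [map_mul, map_pow]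
      exact mul_le_of_le_one_left' k2
    · rw [map_mul, map_mul, h2, one_mul]
      calc v b4 * v e ≤ 1 * v e := mul_le_mul_left k4 _
        _ = v e := one_mul _
        _ ≤ v e ^ 2 := by
          rw [sq]
          exact le_mul_of_one_le_left' hc.le
    · exact k6.trans (one_le_pow₀ hc.le)
  rw [← v.map_neg, ← e1, e2] at e3
  have e4 : v e ^ 2 < v e ^ 3 := pow_lt_pow_right₀ hc (by norm_num)
  exact absurd e3 (not_le.2 e4)

private theorem Leg_one {a b c : Γ} (ha : a ≤ 1) (hb : b ≤ 1) (hc : c ≤ 1)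
    (h : (a * b * c) ^ 2 = 1) : a = 1 := by
  refine le_antisymm ha (not_lt.1 fun hl => ?_)
  have h1 : a * b * c ≤ a := (mul_le_of_le_one_right' hc).trans (mul_le_of_le_one_right' hb)
  have h2 : (a * b * c) ^ 2 ≤ a ^ 2 := pow_le_pow_left' h1 2
  have h3 : a ^ 2 < 1 := pow_lt_one₀ zero_le hl (by norm_num)
  rw [h] at h2
  exact absurd h3 (not_lt.2 h2)

private theorem Leg_sub {x y : K} (hx : v x ≤ 1) (hy : v y ≤ 1) : v (x - y) ≤ 1 :=
  (v.map_sub _ _).trans (max_le hx hy)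

end val

private theorem Leg_good {K : Type} [Field K] [NumberField K] (E : WeierstrassCurve K)
    {e0 e1 e2 : K} (h01 : e0 - e1 ≠ 0) (h02 : e0 - e2 ≠ 0) (h12 : e1 - e2 ≠ 0)
    (h0 : 4 * e0 ^ 3 + E.b₂ * e0 ^ 2 + 2 * E.b₄ * e0 + E.b₆ = 0)
    (h1 : 4 * e1 ^ 3 + E.b₂ * e1 ^ 2 + 2 * E.b₄ * e1 + E.b₆ = 0)
    (h2 : 4 * e2 ^ 3 + E.b₂ * e2 ^ 2 + 2 * E.b₄ * e2 + E.b₆ = 0)
    (w : HeightOneSpectrum (𝓞 K)) (hg : GoodAt w E) (hw : w.valuation K (2 : K) = 1) :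
    ∃ u : K, u ≠ 0 ∧ w.valuation K (u * (e0 - e1)) = 1 ∧ w.valuation K (u * (e0 - e2)) = 1 ∧
      w.valuation K (u * (e1 - e2)) = 1 := by
  obtain ⟨C, ha1, ha2, ha3, ha4, ha6, hD⟩ := hg
  obtain ⟨v, hv⟩ : ∃ v, v = w.valuation K := ⟨_, rfl⟩
  rw [← hv] at ha1 ha2 ha3 ha4 ha6 hD hw ⊢
  obtain ⟨u, hu⟩ : ∃ u : K, u = ((C.u⁻¹ : Kˣ) : K) ^ 2 := ⟨_, rfl⟩
  have hu0 : u ≠ 0 := by
    rw [hu]
    exact pow_ne_zero _ (Units.ne_zero _)
  have g0 := Leg_root E C h0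
  have g1 := Leg_root E C h1
  have g2 := Leg_root E C h2
  rw [← hu] at g0 g1 g2
  have v4 : v 4 ≤ 1 := by
    have := Leg_nat v 4
    exact_mod_cast this
  have v16 : v 16 = 1 := by
    have := Leg_two v 4 hw
    norm_num at this
    exact this
  have k2 : v (C • E).b₂ ≤ 1 := by
    rw [WeierstrassCurve.b₂]
    refine (v.map_add _ _).trans (max_le ?_ ?_)
    · rw [map_pow]
      exact pow_le_one' ha1 2
    · rw [map_mul]
      exact mul_le_one' v4 ha2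
  have k4 : v (C • E).b₄ ≤ 1 := by
    rw [WeierstrassCurve.b₄]
    refine (v.map_add _ _).trans (max_le ?_ ?_)
    · rw [map_mul]
      exact mul_le_one' hw.le ha4
    · rw [map_mul]
      exact mul_le_one' ha1 ha3
  have k6 : v (C • E).b₆ ≤ 1 := by
    rw [WeierstrassCurve.b₆]
    refine (v.map_add _ _).trans (max_le ?_ ?_)
    · rw [map_pow]
      exact pow_le_one' ha3 2
    · rw [map_mul]
      exact mul_le_one' v4 ha6
  have i0 := Leg_int v hw k2 k4 k6 g0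
  have i1 := Leg_int v hw k2 k4 k6 g1
  have i2 := Leg_int v hw k2 k4 k6 g2
  have d01 : u * (e0 - C.r) - u * (e1 - C.r) = u * (e0 - e1) := by ring
  have d02 : u * (e0 - C.r) - u * (e2 - C.r) = u * (e0 - e2) := by ring
  have d12 : u * (e1 - C.r) - u * (e2 - C.r) = u * (e1 - e2) := by ring
  have n01 : u * (e0 - C.r) - u * (e1 - C.r) ≠ 0 := by rw [d01]; exact mul_ne_zero hu0 h01
  have n02 : u * (e0 - C.r) - u * (e2 - C.r) ≠ 0 := by rw [d02]; exact mul_ne_zero hu0 h02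
  have n12 : u * (e1 - C.r) - u * (e2 - C.r) ≠ 0 := by rw [d12]; exact mul_ne_zero hu0 h12
  have j01 := Leg_sub v i0 i1
  have j02 := Leg_sub v i0 i2
  have j12 := Leg_sub v i1 i2
  obtain ⟨hΔ, -⟩ := Leg_disc (C • E) n01 n02 n12 g0 g1 g2
  rw [hΔ] at hD
  rw [d01] at j01 hD
  rw [d02] at j02 hD
  rw [d12] at j12 hD
  rw [map_mul, v16, one_mul, map_pow, map_mul, map_mul] at hD
  refine ⟨u, hu0, Leg_one j01 j02 j12 hD, ?_, ?_⟩
  · refine Leg_one j02 j01 j12 ?_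
    rw [← hD]
    congr 1
    rw [mul_comm (v (u * (e0 - e2)))]
  · refine Leg_one j12 j01 j02 ?_
    rw [← hD]
    congr 1
    rw [mul_assoc, mul_comm]

private theorem Leg_fin {K : Type} [Field K] [NumberField K] (E : WeierstrassCurve K)
    (hE : E.Δ ≠ 0) : {v : HeightOneSpectrum (𝓞 K) | ¬ GoodAt v E}.Finite := by
  have hf := fun k : K => HeightOneSpectrum.Support.finite (𝓞 K) k
  refine ((hf E.a₁).union ((hf E.a₂).union ((hf E.a₃).union ((hf E.a₄).union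
    ((hf E.a₆).union ((hf E.Δ).union (hf E.Δ⁻¹))))))).subset ?_
  intro v hv
  by_contra hc
  simp only [HeightOneSpectrum.Support, Set.mem_union, Set.mem_ofPred_eq, not_or, not_lt] at hc
  obtain ⟨c1, c2, c3, c4, c6, c7, c8⟩ := hc
  apply hv
  refine ⟨1, ?_⟩
  rw [one_smul]
  refine ⟨c1, c2, c3, c4, c6, le_antisymm c7 ?_⟩
  have h0 : v.valuation K E.Δ ≠ 0 := (Valuation.ne_zero_iff _).2 hE
  rw [map_inv₀] at c8
  exact (inv_le_one₀ (zero_lt_iff.2 h0)).1 c8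

theorem leg : LegS := by
  intro K _ _ E hE hT
  refine ⟨Leg_fin E hE, ?_⟩
  obtain ⟨e, hinj, he⟩ := hT
  obtain ⟨e0, he0⟩ : ∃ x, x = e 0 := ⟨_, rfl⟩
  obtain ⟨e1, he1⟩ : ∃ x, x = e 1 := ⟨_, rfl⟩
  obtain ⟨e2, he2⟩ : ∃ x, x = e 2 := ⟨_, rfl⟩
  have h0 := he 0
  have h1 := he 1
  have h2 := he 2
  rw [← he0] at h0
  rw [← he1] at h1
  rw [← he2] at h2
  have h01 : e0 - e1 ≠ 0 := by
    rw [he0, he1, sub_ne_zero]
    exact hinj.ne (by decide)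
  have h02 : e0 - e2 ≠ 0 := by
    rw [he0, he2, sub_ne_zero]
    exact hinj.ne (by decide)
  have h12 : e1 - e2 ≠ 0 := by
    rw [he1, he2, sub_ne_zero]
    exact hinj.ne (by decide)
  obtain ⟨hΔ, hc4⟩ := Leg_disc E h01 h02 h12 h0 h1 h2
  have hl1 : 1 - (e0 - e2) / (e0 - e1) = -((e1 - e2) / (e0 - e1)) := by
    field_simp
    ring
  refine ⟨(e0 - e2) / (e0 - e1), div_ne_zero h02 h01, ?_, ?_, ?_⟩
  · intro h
    rw [← sub_eq_zero, ← neg_sub, hl1, neg_neg] at h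
    exact div_ne_zero h12 h01 h
  · rw [hl1, hΔ, hc4]
    have h16 : (16 : K) ≠ 0 := by norm_num
    field_simp
    ring
  · intro v hg hv
    obtain ⟨u, hu, v1, v2, v3⟩ := Leg_good E h01 h02 h12 h0 h1 h2 v hg hv
    constructor
    · rw [← mul_div_mul_left (e0 - e2) (e0 - e1) hu, map_div₀, v1, v2, div_one]
    · rw [hl1, Valuation.map_neg, ← mul_div_mul_left (e1 - e2) (e0 - e1) hu, map_div₀, v1, v3,
        div_one]

end Pool.Agent.TH876.FH
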