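import Mathlib
import Pool.Agent.TH876.FH.Def

set_option autoImplicit false

/-!
# The heights of the Legendre parameter and of the modular invariant

With `s = l ^ 2 - l` one has `(1 - 3 s) (1 + s) ^ 3 + (6 + 8 s + 3 s ^ 2) s ^ 2 = 1`; homogenized,
this is the relation needed in `Height.logHeight_eval_ge'`.
-/

namespace Pool.Agent.TH876.FH

open NumberField IsDedekindDomain MvPolynomial

section

variable {K : Type} [Field K]

/-- the homogeneous polynomials of degree `5` -/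
noncomputable def Lh_q (a : Fin 2 × Fin 2) : MvPolynomial (Fin 2) K :=
  (![![C (1 / 256) * X 0 ^ 5 * X 1 ^ 0 - C (3 / 256) * X 0 ^ 3 * X 1 ^ 2 +
        C (3 / 256) * X 0 ^ 4 * X 1 ^ 1,
      C 3 * X 0 ^ 1 * X 1 ^ 4 - C 6 * X 0 ^ 2 * X 1 ^ 3 + C 11 * X 0 ^ 3 * X 1 ^ 2 -
        C 8 * X 0 ^ 4 * X 1 ^ 1 + C 6 * X 0 ^ 5 * X 1 ^ 0],
    ![C (1 / 256) * X 0 ^ 0 * X 1 ^ 5 - C (3 / 256) * X 0 ^ 2 * X 1 ^ 3 +
        C (3 / 256) * X 0 ^ 1 * X 1 ^ 4,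
      C 3 * X 0 ^ 4 * X 1 ^ 1 - C 6 * X 0 ^ 3 * X 1 ^ 2 + C 11 * X 0 ^ 2 * X 1 ^ 3 -
        C 8 * X 0 ^ 1 * X 1 ^ 4 + C 6 * X 0 ^ 0 * X 1 ^ 5]] : Fin 2 → Fin 2 →
    MvPolynomial (Fin 2) K) a.1 a.2

lemma Lh_mon (c : K) (a b n : ℕ) (h : a + b = n) :
    (C c * X 0 ^ a * X 1 ^ b : MvPolynomial (Fin 2) K).IsHomogeneous n := by
  have h1 : (C c * X 0 ^ a * X 1 ^ b : MvPolynomial (Fin 2) K).IsHomogeneous
      (0 + 1 * a + 1 * b) :=
    ((isHomogeneous_C _ c).mul ((isHomogeneous_X K 0).pow a)).mul ((isHomogeneous_X K 1).pow b)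
  have h2 : 0 + 1 * a + 1 * b = n := by omega
  rwa [h2] at h1

lemma Lh_hom (a : Fin 2 × Fin 2) : (Lh_q a : MvPolynomial (Fin 2) K).IsHomogeneous 5 := by
  obtain ⟨i, j⟩ := a
  have k : ∀ (c : K) (a b : ℕ), a + b = 5 →
      (C c * X 0 ^ a * X 1 ^ b : MvPolynomial (Fin 2) K).IsHomogeneous 5 :=
    fun c a b h => Lh_mon c a b 5 h
  fin_cases i <;> fin_cases j
  · exact ((k _ 5 0 rfl).sub (k _ 3 2 rfl)).add (k _ 4 1 rfl)
  · exact ((((k _ 1 4 rfl).sub (k _ 2 3 rfl)).add (k _ 3 2 rfl)).sub (k _ 4 1 rfl)).add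
      (k _ 5 0 rfl)
  · exact ((k _ 0 5 rfl).sub (k _ 2 3 rfl)).add (k _ 1 4 rfl)
  · exact ((((k _ 4 1 rfl).sub (k _ 3 2 rfl)).add (k _ 2 3 rfl)).sub (k _ 1 4 rfl)).add
      (k _ 0 5 rfl)

/-- the two forms of degree `6` -/
noncomputable def Lh_p : Fin 2 → MvPolynomial (Fin 2) K :=
  ![C 256 * (X 0 ^ 2 - X 0 * X 1 + X 1 ^ 2) ^ 3, X 0 ^ 2 * (X 1 - X 0) ^ 2 * X 1 ^ 2]

end

theorem lh : LhS := by
  intro K _ _
  obtain ⟨C0, hC⟩ := Height.logHeight_eval_ge' (K := K) (M := 5) (N := 6) (q := Lh_q)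
    (fun a => Lh_hom a)
  refine ⟨-C0, fun j l h0 h1 hj => ?_⟩
  have h256 : (256 : K) ≠ 0 := by norm_num
  have hrel : ∀ k : Fin 2, ∑ i : Fin 2, (Lh_q (k, i) : MvPolynomial (Fin 2) K).eval ![l, 1] *
      (Lh_p i).eval ![l, 1] = (![l, 1] : Fin 2 → K) k ^ (5 + 6) := by
    intro k
    fin_cases k
    · simp only [Fin.sum_univ_two, Lh_q, Lh_p, Fin.zero_eta, Fin.isValue, Matrix.cons_val_zero,
        Matrix.cons_val_one, map_add, map_sub, map_mul, map_pow, eval_C, eval_X]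
      field_simp
      ring
    · simp only [Fin.sum_univ_two, Lh_q, Lh_p, Fin.mk_one, Fin.isValue, Matrix.cons_val_zero,
        Matrix.cons_val_one, map_add, map_sub, map_mul, map_pow, eval_C, eval_X]
      field_simp
      ring
  have h := hC Lh_p hrel
  have hQ : l ^ 2 * (1 - l) ^ 2 ≠ 0 :=
    mul_ne_zero (pow_ne_zero _ h0) (pow_ne_zero _ (sub_ne_zero.2 h1.symm))
  have hj2 : j = (256 * (l ^ 2 - l + 1) ^ 3) / (l ^ 2 * (1 - l) ^ 2) := by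
    rw [eq_div_iff hQ]; exact hj
  have hfun : (fun i => (Lh_p i : MvPolynomial (Fin 2) K).eval ![l, 1]) =
      ![256 * (l ^ 2 - l + 1) ^ 3, l ^ 2 * (1 - l) ^ 2] := by
    funext i
    fin_cases i
    · simp [Lh_p]
    · simp [Lh_p]
  rw [hfun, ← Height.logHeight₁_eq_logHeight] at h
  rw [hj2, Height.logHeight₁_div_eq_logHeight]
  push_cast at h
  linarith

end Pool.Agent.TH876.FH
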