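import Mathlib
import Pool.Agent.TH876.FH.Def

set_option autoImplicit false

/-!
# Violators of Frey's inequality among the products of elliptic curves over `ℚ` with full
two-torsion: definitions and statements of the parts
-/

namespace Pool.Agent.TH876.FH

open NumberField IsDedekindDomain

/-- the count of Legendre parameters over `ℚ`, of any height -/
def CntQ : Prop := ∀ ε : ℝ, 0 < ε → ∃ C : ℝ, 0 ≤ C ∧ ∀ X : ℝ, 1 ≤ X →
  {l : ℚ | Unit2 X l}.Finite ∧ ({l : ℚ | Unit2 X l}.ncard : ℝ) ≤ C * X ^ ((2 : ℝ) / 3 + ε)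

/-- the violators of `h_F(A) ≤ κ log N + c` with `h_F(A) ≤ log B` -/
def ViolQ (g : ℕ) (κ c B : ℝ) : Set (Fin g → ℚ) :=
  {j | ∃ (E : Fin g → WeierstrassCurve ℚ) (τ : Fin g → InfinitePlace ℚ → UpperHalfPlane),
    (∀ i, (E i).Δ ≠ 0 ∧ FullTwo (E i) ∧ (E i).c₄ ^ 3 / (E i).Δ = j i ∧ IsPeriod (j i) (τ i)) ∧
    ∑ i, faltings (j i) (τ i) ≤ Real.log B ∧
    κ * Real.log (∏ i, badNorm (E i)) + c < ∑ i, faltings (j i) (τ i)}

/-- the count of violators -/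
def MainQ : Prop := ∀ (g : ℕ) (κ c δ : ℝ), 0 < κ → 0 < δ → ∃ C : ℝ, ∀ B : ℝ, 1 ≤ B →
  (ViolQ g κ c B).Finite ∧ ((ViolQ g κ c B).ncard : ℝ) ≤ C * B ^ (2 / (3 * κ) + δ)

end Pool.Agent.TH876.FH
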