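import Mathlib
import Pool.Agent.TH876.FH.DefQ
import Pool.Agent.TH867.SB.Final

set_option autoImplicit false

/-!
# The number of Legendre parameters over `ℚ`
-/

namespace Pool.Agent.TH876.FH

open NumberField IsDedekindDomain

/-- the place of a prime -/
noncomputable def CntQ_v (p : ℕ) (hp : p.Prime) : HeightOneSpectrum (𝓞 ℚ) :=
  (Rat.HeightOneSpectrum.primesEquiv (R := 𝓞 ℚ)).symm ⟨p, hp⟩

theorem CntQ_v_inj {p q : ℕ} {hp : p.Prime} {hq : q.Prime} (h : CntQ_v p hp = CntQ_v q hq) : p = q := by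
  have := (Rat.HeightOneSpectrum.primesEquiv (R := 𝓞 ℚ)).symm.injective h
  exact congrArg Subtype.val this

theorem CntQ_gen (p : ℕ) (hp : p.Prime) :
    Rat.HeightOneSpectrum.natGenerator (CntQ_v p hp) = p := by
  have := (Rat.HeightOneSpectrum.primesEquiv (R := 𝓞 ℚ)).apply_symm_apply ⟨p, hp⟩
  exact congrArg Subtype.val this

theorem CntQ_norm (p : ℕ) (hp : p.Prime) : p ≤ Ideal.absNorm (CntQ_v p hp).asIdeal := by
  set v := CntQ_v p hp with hv
  have h1 : ((Ideal.absNorm v.asIdeal : ℕ) : 𝓞 ℚ) ∈ v.asIdeal := Ideal.absNorm_mem _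
  have h2 := Ideal.mem_map_of_mem (Rat.IsIntegralClosure.intEquiv (𝓞 ℚ)) h1
  rw [map_natCast] at h2
  have h3 := (Rat.HeightOneSpectrum.natGenerator_dvd_iff v).2 h2
  rw [CntQ_gen p hp] at h3
  refine Nat.le_of_dvd (Nat.pos_of_ne_zero ?_) h3
  rw [Ne, Ideal.absNorm_eq_zero_iff]
  exact v.ne_bot

theorem CntQ_one (p : ℕ) (hp : p.Prime) (x : ℚ) (hx : x ≠ 0) :
    (CntQ_v p hp).valuation ℚ x = 1 ↔ padicValRat p x = 0 := by
  have : Fact p.Prime := ⟨hp⟩
  have h1 := Rat.HeightOneSpectrum.valuation_equiv_padicValuation (CntQ_v p hp)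
  rw [h1.eq_one_iff_eq_one]
  have h2 : (Rat.HeightOneSpectrum.primesEquiv (CntQ_v p hp)) = (⟨p, hp⟩ : Nat.Primes) :=
    (Rat.HeightOneSpectrum.primesEquiv (R := 𝓞 ℚ)).apply_symm_apply ⟨p, hp⟩
  rw [h2]
  simp [Rat.padicValuation, hx]

theorem CntQ_two (p : ℕ) (hp : p.Prime) (h2 : p ≠ 2) : (CntQ_v p hp).valuation ℚ (2 : ℚ) = 1 := by
  have : Fact p.Prime := ⟨hp⟩
  rw [CntQ_one p hp 2 (by norm_num)]
  have h3 : ((2 : ℕ) : ℚ) = 2 := by norm_num
  rw [← h3, padicValRat.of_nat]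
  rw [padicValNat.eq_zero_of_not_dvd]
  · rfl
  · intro hd
    exact h2 ((Nat.prime_dvd_prime_iff_eq hp Nat.prime_two).1 hd)

/-- a prime which divides numerator, denominator or the difference -/
theorem CntQ_dvd (p : ℕ) (hp : p.Prime) {l : ℚ} (h0 : l ≠ 0) (h1 : l ≠ 1)
    (hd : p ∣ l.num.natAbs * l.den * ((l.den : ℤ) - l.num).natAbs) :
    padicValRat p l ≠ 0 ∨ padicValRat p (1 - l) ≠ 0 := by
  have : Fact p.Prime := ⟨hp⟩
  have hnum : l.num.natAbs ≠ 0 := by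
    rw [Int.natAbs_ne_zero]
    exact Rat.num_ne_zero.2 h0
  have hcop : Nat.Coprime l.num.natAbs l.den := l.reduced
  have hv : padicValRat p l = (padicValNat p l.num.natAbs : ℤ) - padicValNat p l.den := rfl
  rw [hp.dvd_mul, hp.dvd_mul] at hd
  rcases hd with (hd | hd) | hd
  · left
    have h2 : ¬ p ∣ l.den := fun h => Nat.Prime.one_lt hp |>.ne' (Nat.dvd_one.1 (hcop ▸ Nat.dvd_gcd hd h))
    have h3 := one_le_padicValNat_of_dvd hnum hd
    rw [hv, padicValNat.eq_zero_of_not_dvd h2]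
    omega
  · left
    have h2 : ¬ p ∣ l.num.natAbs :=
      fun h => Nat.Prime.one_lt hp |>.ne' (Nat.dvd_one.1 (hcop ▸ Nat.dvd_gcd h hd))
    have h3 := one_le_padicValNat_of_dvd l.den_ne_zero hd
    rw [hv, padicValNat.eq_zero_of_not_dvd h2]
    omega
  · right
    have hb : (l.den : ℚ) ≠ 0 := by exact_mod_cast l.den_ne_zero
    have hz : (l.den : ℤ) - l.num ≠ 0 := by
      intro hz
      apply h1
      have h4 : l.num = l.den := by omega
      have h5 := l.num_div_den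
      rw [h4] at h5
      rw [← h5]
      push_cast
      exact div_self hb
    have h2 : ¬ p ∣ l.den := by
      intro h
      have h3 : (p : ℤ) ∣ l.num := by
        have h4 : (p : ℤ) ∣ (l.den : ℤ) - l.num := Int.natCast_dvd.2 hd
        have h5 : (p : ℤ) ∣ (l.den : ℤ) := by exact_mod_cast h
        have h6 := dvd_sub h5 h4
        rwa [sub_sub_cancel] at h6
      exact Nat.Prime.one_lt hp |>.ne' (Nat.dvd_one.1 (hcop ▸ Nat.dvd_gcd (Int.natCast_dvd.1 h3) h))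
    have h3 := one_le_padicValNat_of_dvd (Int.natAbs_ne_zero.2 hz) hd
    have h4 : 1 - l = (((l.den : ℤ) - l.num : ℤ) : ℚ) / ((l.den : ℕ) : ℚ) := by
      rw [eq_div_iff hb]
      push_cast
      have h6 : l * l.den = l.num := Rat.mul_den_eq_num l
      linear_combination -h6
    rw [h4, padicValRat.div (by exact_mod_cast hz) hb, padicValRat.of_int, padicValRat.of_nat,
      padicValNat.eq_zero_of_not_dvd h2]
    have h7 : padicValInt p ((l.den : ℤ) - l.num) = padicValNat p ((l.den : ℤ) - l.num).natAbs := rfl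
    rw [h7]
    omega

/-- the product of the primes dividing `n` -/
def CntQ_radical (n : ℕ) : ℕ := ∏ q ∈ n.primeFactors, q

theorem CntQ_rad {X : ℝ} {l : ℚ} (h : Unit2 X l) :
    ((CntQ_radical (l.num.natAbs * l.den * ((l.den : ℤ) - l.num).natAbs) : ℕ) : ℝ) ≤ 2 * X := by
  classical
  obtain ⟨h0, h1, T, hT, hv⟩ := h
  set N := l.num.natAbs * l.den * ((l.den : ℤ) - l.num).natAbs with hN
  set S := N.primeFactors.erase 2 with hS
  have hSp : ∀ p ∈ S, p.Prime := fun p hp =>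
    Nat.prime_of_mem_primeFactors (Finset.mem_of_mem_erase hp)
  have hST : ∀ p (hp : p ∈ S), CntQ_v p (hSp p hp) ∈ T := by
    intro p hp
    by_contra hc
    obtain ⟨a1, a2⟩ := hv _ hc (CntQ_two p (hSp p hp) (Finset.ne_of_mem_erase hp))
    have h1l : 1 - l ≠ 0 := fun h => h1 (sub_eq_zero.1 h).symm
    rw [CntQ_one p (hSp p hp) l h0] at a1
    rw [CntQ_one p (hSp p hp) (1 - l) h1l] at a2
    rcases CntQ_dvd p (hSp p hp) h0 h1 (Nat.dvd_of_mem_primeFactors (Finset.mem_of_mem_erase hp))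
      with h | h
    · exact h a1
    · exact h a2
  have hprod : ∏ p ∈ S, p ≤ ∏ v ∈ T, Ideal.absNorm v.asIdeal := by
    calc ∏ p ∈ S, p = ∏ p ∈ S.attach, p.1 := (Finset.prod_attach S (fun p => p)).symm
      _ ≤ ∏ p ∈ S.attach, Ideal.absNorm (CntQ_v p.1 (hSp p.1 p.2)).asIdeal :=
        Finset.prod_le_prod' fun p _ => CntQ_norm p.1 (hSp p.1 p.2)
      _ = ∏ v ∈ S.attach.image (fun p => CntQ_v p.1 (hSp p.1 p.2)), Ideal.absNorm v.asIdeal := by
        rw [Finset.prod_image]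
        intro p _ q _ hpq
        exact Subtype.ext (CntQ_v_inj hpq)
      _ ≤ ∏ v ∈ T, Ideal.absNorm v.asIdeal := by
        refine Finset.prod_le_prod_of_subset_of_one_le' ?_ ?_
        · intro v hv'
          obtain ⟨p, _, rfl⟩ := Finset.mem_image.1 hv'
          exact hST p.1 p.2
        · intro v _ _
          rw [Nat.one_le_iff_ne_zero, Ne, Ideal.absNorm_eq_zero_iff]
          exact v.ne_bot
  have h2 : CntQ_radical N ≤ 2 * ∏ p ∈ S, p := by
    unfold CntQ_radical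
    by_cases h2N : 2 ∈ N.primeFactors
    · rw [← Finset.mul_prod_erase _ _ h2N]
    · rw [hS, Finset.erase_eq_of_notMem h2N]
      omega
  have h3 : ((∏ v ∈ T, Ideal.absNorm v.asIdeal : ℕ) : ℝ) ≤ X := by
    push_cast
    exact hT
  calc ((CntQ_radical N : ℕ) : ℝ) ≤ ((2 * ∏ v ∈ T, Ideal.absNorm v.asIdeal : ℕ) : ℝ) := by
        exact_mod_cast h2.trans (Nat.mul_le_mul_left 2 hprod)
    _ = 2 * ((∏ v ∈ T, Ideal.absNorm v.asIdeal : ℕ) : ℝ) := by push_cast; ring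
    _ ≤ 2 * X := by linarith

/-- pairs of coprime numbers -/
def CntQ_G (Y : ℝ) : Set (ℕ × ℕ) :=
  {p | 0 < p.1 ∧ 0 < p.2 ∧ Nat.Coprime p.1 p.2 ∧
    ((CntQ_radical (p.1 * p.2 * (p.1 + p.2)) : ℕ) : ℝ) ≤ Y}

theorem CntQ_cover {X : ℝ} {l : ℚ} (h : Unit2 X l) :
    l ∈ (fun p : ℕ × ℕ => (p.1 : ℚ) / (p.1 + p.2)) '' CntQ_G (2 * X) ∪
      (fun p : ℕ × ℕ => ((p.1 : ℚ) + p.2) / p.1) '' CntQ_G (2 * X) ∪
      (fun p : ℕ × ℕ => -(p.1 : ℚ) / p.2) '' CntQ_G (2 * X) := by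
  have hr := CntQ_rad h
  obtain ⟨h0, h1, -⟩ := h
  obtain ⟨b, hb⟩ : ∃ b, b = l.den := ⟨_, rfl⟩
  have hb0 : 0 < b := hb ▸ l.den_pos
  have hcop : Nat.Coprime l.num.natAbs b := hb ▸ l.reduced
  have hl : (l.num : ℚ) / b = l := hb ▸ l.num_div_den
  have hn0 : l.num ≠ 0 := Rat.num_ne_zero.2 h0
  rw [← hb] at hr
  have hbq : (b : ℚ) ≠ 0 := by exact_mod_cast hb0.ne'
  rcases lt_trichotomy l.num 0 with hneg | hz | hpos
  · right
    obtain ⟨n, hn⟩ : ∃ n : ℕ, l.num = -(n : ℤ) := ⟨l.num.natAbs, by omega⟩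
    rw [hn] at hr hcop hl
    have e1 : (-(n : ℤ)).natAbs = n := by simp
    have e2 : ((b : ℤ) - -(n : ℤ)).natAbs = n + b := by omega
    rw [e1] at hcop
    rw [e1, e2] at hr
    refine ⟨(n, b), ⟨by show 0 < n; omega, hb0, hcop, hr⟩, ?_⟩
    show -(n : ℚ) / b = l
    rw [← hl]
    push_cast
    rfl
  · exact absurd hz hn0
  · left
    obtain ⟨n, hn⟩ : ∃ n : ℕ, l.num = (n : ℤ) := ⟨l.num.natAbs, by omega⟩
    rw [hn] at hr hcop hl
    have e1 : ((n : ℤ)).natAbs = n := by simp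
    rw [e1] at hcop hr
    have hn1 : 0 < n := by omega
    have hnb : n ≠ b := by
      rintro rfl
      apply h1
      rw [← hl]
      push_cast
      exact div_self hbq
    rcases lt_or_gt_of_ne hnb with hlt | hgt
    · left
      obtain ⟨m, hm⟩ : ∃ m, b = n + m := ⟨b - n, by omega⟩
      subst hm
      have e2 : (((n + m : ℕ) : ℤ) - (n : ℤ)).natAbs = m := by omega
      rw [e2] at hr
      refine ⟨(n, m), ⟨hn1, by show 0 < m; omega, ?_, ?_⟩, ?_⟩
      · show Nat.Coprime n m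
        simpa using hcop
      · show ((CntQ_radical (n * m * (n + m)) : ℕ) : ℝ) ≤ 2 * X
        rw [show n * m * (n + m) = n * (n + m) * m by ring]
        exact hr
      · show (n : ℚ) / (n + m) = l
        rw [← hl]
        push_cast
        rfl
    · right
      obtain ⟨m, hm⟩ : ∃ m, n = b + m := ⟨n - b, by omega⟩
      subst hm
      have e2 : ((b : ℤ) - ((b + m : ℕ) : ℤ)).natAbs = m := by omega
      rw [e2] at hr
      refine ⟨(b, m), ⟨hb0, by show 0 < m; omega, ?_, ?_⟩, ?_⟩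
      · show Nat.Coprime b m
        have := hcop.symm
        simpa using this
      · show ((CntQ_radical (b * m * (b + m)) : ℕ) : ℝ) ≤ 2 * X
        rw [show b * m * (b + m) = (b + m) * b * m by ring]
        exact hr
      · show ((b : ℚ) + m) / b = l
        rw [← hl]
        push_cast
        rfl

/-- the triple of a pair -/
def CntQ_toT (p : ℕ × ℕ) : Fin 3 → ℕ := ![p.1, p.2, p.1 + p.2]

/-- ordered pairs -/
def CntQ_triples (X : ℝ) : Set (ℕ × ℕ) :=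
  {p | 0 < p.1 ∧ p.1 ≤ p.2 ∧ Nat.Coprime p.1 p.2 ∧
    ((CntQ_radical (p.1 * p.2 * (p.1 + p.2)) : ℕ) : ℝ) ≤ X}

open Pool.Agent.TH867.SR in
theorem CntQ_toT_inj : Function.Injective CntQ_toT := by
  intro p q h
  have h0 := congrFun h 0
  have h1 := congrFun h 1
  simp only [CntQ_toT, Matrix.cons_val_zero, Matrix.cons_val_one] at h0 h1
  exact Prod.ext h0 h1

open Pool.Agent.TH867.SR in
theorem CntQ_toT_tr {X : ℝ} {p : ℕ × ℕ} (hp : p ∈ CntQ_triples X) :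
    Tr (CntQ_toT p) ∧ rr (CntQ_toT p) 0 + rr (CntQ_toT p) 1 + rr (CntQ_toT p) 2 ≤ Real.log X := by
  obtain ⟨h1, h2, h3, h4⟩ := hp
  have ht : Tr (CntQ_toT p) := ⟨h1, h2, h3, rfl⟩
  refine ⟨ht, ?_⟩
  rw [← rr_sum ht, ← log_prod_primes fun q hq => Nat.prime_of_mem_primeFactors hq]
  refine Real.log_le_log ?_ h4
  exact_mod_cast Finset.prod_pos fun q hq => (Nat.prime_of_mem_primeFactors hq).pos

theorem CntQ_triples_finite {X : ℝ} (hX : 1 ≤ X) : (CntQ_triples X).Finite := by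
  obtain ⟨H, hH⟩ : ∃ H, H = Real.exp (3000 * (1 + Real.log X) ^ 6) := ⟨_, rfl⟩
  refine Set.Finite.subset (Finset.finite_toSet
    ((Finset.range (⌊Real.exp H⌋₊ + 1)) ×ˢ (Finset.range (⌊Real.exp H⌋₊ + 1)))) ?_
  intro p hp
  have h5 := Pool.Agent.TH867.SM.height_le (CntQ_toT_tr hp).1 hX (CntQ_toT_tr hp).2
  rw [← hH] at h5
  obtain ⟨h1, h2, _, _⟩ := hp
  have h7 : CntQ_toT p 2 = p.1 + p.2 := rfl
  rw [h7] at h5
  have h6 : p.1 + p.2 ≤ ⌊Real.exp H⌋₊ := by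
    refine Nat.le_floor ?_
    rw [← Real.log_le_iff_le_exp (by exact_mod_cast (by omega : 0 < p.1 + p.2))]
    exact h5
  simp only [Finset.coe_product, Finset.coe_range, Set.mem_prod, Set.mem_Iio]
  omega

theorem CntQ_G_sub (Y : ℝ) : CntQ_G Y ⊆ CntQ_triples Y ∪ Prod.swap '' CntQ_triples Y := by
  rintro ⟨u, w⟩ ⟨h1, h2, h3, h4⟩
  rcases le_total u w with h | h
  · exact Or.inl ⟨h1, h, h3, h4⟩
  · refine Or.inr ⟨(w, u), ⟨h2, h, h3.symm, ?_⟩, rfl⟩
    show ((CntQ_radical (w * u * (w + u)) : ℕ) : ℝ) ≤ Y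
    rw [show w * u * (w + u) = u * w * (u + w) by ring]
    exact h4

theorem CntQ_triples_card (ε : ℝ) (hε : 0 < ε) : ∃ D : ℝ, 0 < D ∧ ∀ X : ℝ, 1 ≤ X →
    ((CntQ_triples X).ncard : ℝ) ≤ D * X ^ (2 / 3 + ε) := by
  classical
  obtain ⟨D, hD, hup⟩ := Pool.Agent.TH867.SB.all_heights ε hε
  refine ⟨D, hD, fun X hX => ?_⟩
  have hfin := CntQ_triples_finite hX
  have h1 := hup X hX (hfin.toFinset.image CntQ_toT) (fun t ht => by
    obtain ⟨p, hp, rfl⟩ := Finset.mem_image.1 ht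
    exact CntQ_toT_tr (hfin.mem_toFinset.1 hp))
  rw [Finset.card_image_of_injective _ CntQ_toT_inj] at h1
  rw [Set.ncard_eq_toFinset_card _ hfin]
  exact h1

theorem cntQ : CntQ := by
  intro ε hε
  obtain ⟨D, hD, hcard⟩ := CntQ_triples_card ε hε
  refine ⟨6 * D * 2 ^ ((2 : ℝ) / 3 + ε), by positivity, fun X hX => ?_⟩
  have hX2 : 1 ≤ 2 * X := by linarith
  have hX0 : 0 < X := by linarith
  have hfin := CntQ_triples_finite hX2
  have hc := hcard (2 * X) hX2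
  have hGfin : (CntQ_G (2 * X)).Finite :=
    (hfin.union (hfin.image _)).subset (CntQ_G_sub (2 * X))
  have hGcard : (CntQ_G (2 * X)).ncard ≤ 2 * (CntQ_triples (2 * X)).ncard := by
    calc (CntQ_G (2 * X)).ncard
        ≤ (CntQ_triples (2 * X) ∪ Prod.swap '' CntQ_triples (2 * X)).ncard :=
          Set.ncard_le_ncard (CntQ_G_sub (2 * X)) (hfin.union (hfin.image _))
      _ ≤ (CntQ_triples (2 * X)).ncard + (Prod.swap '' CntQ_triples (2 * X)).ncard :=
          Set.ncard_union_le _ _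
      _ ≤ (CntQ_triples (2 * X)).ncard + (CntQ_triples (2 * X)).ncard :=
          Nat.add_le_add_left (Set.ncard_image_le hfin) _
      _ = _ := by ring
  have hsub : {l : ℚ | Unit2 X l} ⊆
      (fun p : ℕ × ℕ => (p.1 : ℚ) / (p.1 + p.2)) '' CntQ_G (2 * X) ∪
      (fun p : ℕ × ℕ => ((p.1 : ℚ) + p.2) / p.1) '' CntQ_G (2 * X) ∪
      (fun p : ℕ × ℕ => -(p.1 : ℚ) / p.2) '' CntQ_G (2 * X) := fun l hl => CntQ_cover hl
  have hUfin := ((hGfin.image (fun p : ℕ × ℕ => (p.1 : ℚ) / (p.1 + p.2))).union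
    (hGfin.image (fun p : ℕ × ℕ => ((p.1 : ℚ) + p.2) / p.1))).union
    (hGfin.image (fun p : ℕ × ℕ => -(p.1 : ℚ) / p.2))
  refine ⟨hUfin.subset hsub, ?_⟩
  have h1 : {l : ℚ | Unit2 X l}.ncard ≤ 3 * (CntQ_G (2 * X)).ncard := by
    refine (Set.ncard_le_ncard hsub hUfin).trans ?_
    refine (Set.ncard_union_le _ _).trans ?_
    have h2 := Set.ncard_union_le ((fun p : ℕ × ℕ => (p.1 : ℚ) / (p.1 + p.2)) '' CntQ_G (2 * X))
      ((fun p : ℕ × ℕ => ((p.1 : ℚ) + p.2) / p.1) '' CntQ_G (2 * X))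
    have h3 := Set.ncard_image_le hGfin (f := fun p : ℕ × ℕ => (p.1 : ℚ) / (p.1 + p.2))
    have h4 := Set.ncard_image_le hGfin (f := fun p : ℕ × ℕ => ((p.1 : ℚ) + p.2) / p.1)
    have h5 := Set.ncard_image_le hGfin (f := fun p : ℕ × ℕ => -(p.1 : ℚ) / p.2)
    omega
  have h2 : {l : ℚ | Unit2 X l}.ncard ≤ 6 * (CntQ_triples (2 * X)).ncard := by omega
  calc ({l : ℚ | Unit2 X l}.ncard : ℝ) ≤ ((6 * (CntQ_triples (2 * X)).ncard : ℕ) : ℝ) := by
        exact_mod_cast h2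
    _ = 6 * ((CntQ_triples (2 * X)).ncard : ℝ) := by push_cast; ring
    _ ≤ 6 * (D * (2 * X) ^ ((2 : ℝ) / 3 + ε)) := by linarith
    _ = 6 * D * 2 ^ ((2 : ℝ) / 3 + ε) * X ^ ((2 : ℝ) / 3 + ε) := by
        rw [Real.mul_rpow (by norm_num) hX0.le]
        ring

end Pool.Agent.TH876.FH
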