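import Mathlib
import Pool.Agent.TH876.FH.DefQ

set_option autoImplicit false

/-!
# Violators of Frey's inequality over `ℚ`: assembly
-/

namespace Pool.Agent.TH876.FH

open NumberField IsDedekindDomain

lemma FinQ_one_le {X : ℝ} {l : ℚ} (h : Unit2 X l) : 1 ≤ X := by
  obtain ⟨_, _, T, hT, _⟩ := h
  refine le_trans ?_ hT
  rw [← Nat.cast_prod]
  have h1 : 1 ≤ ∏ v ∈ T, Ideal.absNorm v.asIdeal := by
    rw [Nat.one_le_iff_ne_zero, Finset.prod_ne_zero_iff]
    intro v _ h0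
    rw [Ideal.absNorm_eq_zero_iff] at h0
    exact v.ne_bot h0
  exact_mod_cast h1

/-- the map from the Legendre parameters to the modular invariants -/
noncomputable def FinQ_map (g : ℕ) (x : Fin g → ℚ) : Fin g → ℚ := fun i =>
  256 * ((x i) ^ 2 - x i + 1) ^ 3 / ((x i) ^ 2 * (1 - x i) ^ 2)

theorem mainQ (h1 : HjS) (h2 : LegS) (h4 : CntQ) (h5 : ProdS) : MainQ := by
  intro g κ c δ hκ hδ
  have _h1 := h1
  obtain ⟨C, hC0, hC⟩ := h5 ℚ (fun X l => Unit2 X l) (fun _ => 0) (2 / 3)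
    (by norm_num)
    (fun x X Y hx hXY => ⟨hx.1, hx.2.1, by
      obtain ⟨T, hT, hT'⟩ := hx.2.2
      exact ⟨T, hT.trans hXY, hT'⟩⟩)
    (fun x X hx => FinQ_one_le hx) (fun ε' hε' => by
      obtain ⟨C, hC0, hC⟩ := h4 ε' hε'
      refine ⟨C, hC0, fun X H hX hH => ?_⟩
      obtain ⟨hfin, hcard⟩ := hC X hX
      have hset : {x : ℚ | Unit2 X x ∧ (0 : ℝ) ≤ H} = {l : ℚ | Unit2 X l} := by
        ext x
        simp only [Set.mem_ofPred_eq]
        exact ⟨fun h => h.1, fun h => ⟨h, by linarith⟩⟩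
      rw [hset]
      refine ⟨hfin, hcard.trans ?_⟩
      have h6 : 0 ≤ X ^ ((2 : ℝ) / 3 + ε') := Real.rpow_nonneg (by linarith) _
      calc C * X ^ ((2 : ℝ) / 3 + ε') = C * 1 * X ^ ((2 : ℝ) / 3 + ε') := by ring
        _ ≤ C * H * X ^ ((2 : ℝ) / 3 + ε') := by gcongr) g (δ * κ) (by positivity)
  set A : ℝ := 1 + Real.exp (-c / κ) with hA
  have hA1 : 1 ≤ A := by
    have := Real.exp_pos (-c / κ)
    linarith
  refine ⟨C * A ^ ((2 : ℝ) / 3 + δ * κ), fun B hB => ?_⟩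
  have hB0 : 0 < B := by linarith
  have hBk : 1 ≤ B ^ (1 / κ) := Real.one_le_rpow hB (by positivity)
  set X : ℝ := A * B ^ (1 / κ) with hX
  have hX1 : 1 ≤ X := by nlinarith
  obtain ⟨hfin, hcard⟩ := hC X 1 hX1 le_rfl
  set S : Set (Fin g → ℚ) := {x : Fin g → ℚ | (∃ Y : Fin g → ℝ, (∀ i, Unit2 (Y i) (x i)) ∧
    ∏ i, Y i ≤ X) ∧ ∀ _i : Fin g, (0 : ℝ) ≤ 1} with hS
  have hsub : ViolQ g κ c B ⊆ FinQ_map g '' S := by
    rintro j ⟨E, τ, hE, hHt, hbad⟩
    have h6 : ∀ i, ∃ l : ℚ, Unit2 (badNorm (E i)) l ∧ j i * (l ^ 2 * (1 - l) ^ 2) =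
        256 * (l ^ 2 - l + 1) ^ 3 := by
      intro i
      obtain ⟨hΔ, htwo, hj, _⟩ := hE i
      obtain ⟨hfinb, l, hl0, hl1, hlj, hl⟩ := h2 ℚ (E i) hΔ htwo
      refine ⟨l, ⟨hl0, hl1, hfinb.toFinset, le_of_eq ?_, ?_⟩, ?_⟩
      · unfold badNorm
        rw [finprod_mem_eq_finite_toFinset_prod _ hfinb]
      · intro v hv h2v
        rw [Set.Finite.mem_toFinset] at hv
        exact hl v (not_not.1 hv) h2v
      · rw [← hj]
        exact hlj
    choose l hl hlj using h6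
    have hpos : 0 < ∏ i, badNorm (E i) :=
      Finset.prod_pos fun i _ => lt_of_lt_of_le one_pos (FinQ_one_le (hl i))
    refine ⟨l, ⟨⟨fun i => badNorm (E i), hl, ?_⟩, fun _ => zero_le_one⟩, ?_⟩
    · have h7 : κ * Real.log (∏ i, badNorm (E i)) < Real.log B - c := by linarith
      have h8 : Real.log (∏ i, badNorm (E i)) ≤ (Real.log B - c) / κ := by
        rw [le_div_iff₀ hκ]
        linarith
      have h9 := (Real.log_le_iff_le_exp hpos).1 h8
      refine h9.trans ?_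
      have h10 : Real.exp ((Real.log B - c) / κ) = Real.exp (-c / κ) * B ^ (1 / κ) := by
        rw [Real.rpow_def_of_pos hB0, ← Real.exp_add]
        congr 1
        field_simp
        ring
      rw [h10, hX]
      refine mul_le_mul_of_nonneg_right ?_ (by linarith)
      linarith
    · funext i
      have h7 := (hl i).1
      have h8 : 1 - l i ≠ 0 := sub_ne_zero.2 (Ne.symm (hl i).2.1)
      unfold FinQ_map
      rw [div_eq_iff (mul_ne_zero (pow_ne_zero 2 h7) (pow_ne_zero 2 h8)), hlj i]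
  refine ⟨(hfin.image _).subset hsub, ?_⟩
  have h6 : (ViolQ g κ c B).ncard ≤ S.ncard :=
    (Set.ncard_le_ncard hsub (hfin.image _)).trans (Set.ncard_image_le hfin)
  calc ((ViolQ g κ c B).ncard : ℝ) ≤ (S.ncard : ℝ) := by exact_mod_cast h6
    _ ≤ C * 1 ^ g * X ^ ((2 : ℝ) / 3 + δ * κ) := hcard
    _ = C * A ^ ((2 : ℝ) / 3 + δ * κ) * B ^ (2 / (3 * κ) + δ) := by
        rw [one_pow, mul_one, hX, Real.mul_rpow (by linarith) (by linarith),
          ← Real.rpow_mul hB0.le, ← mul_assoc]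
        congr 2
        field_simp

end Pool.Agent.TH876.FH
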